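import Pool.Agent.Lib.Pad47bbV.Defs
import Pool.Agent.Lib.Pad47bb.RatNbhd
import Pool.Agent.Lib.Pad47bbQ.Closing

/-!
Converse: if finitely many lattice points of `N` generate a cone whose `Γ`-translates cover the
interior of `N`, then the thick points are cocompact.

Sketch. Let `P` be the cone generated by the finite set `F` of nonzero lattice points of `N` (remove
`0` from `F`). `P` is closed (`isClosed_hull`, with a positive functional from `exists_pos`). Let
`f` be positive on `N` minus `0`, `ε' ‖y‖ ≤ f y` on `N` (`exists_bound`). Fix `ε > 0` and put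
`Q = {x ∈ P | f x = 1 ∧ Thick L N ε x}`; it is enough to show that the closure of `Q` is contained in
the interior of `N` (it is compact because it is bounded and closed; if `x` is thick then so are
`g x` (`g ∈ Γ`) and `s x` (`s > 0`)). Let `x` be a limit of points `x_k ∈ Q`; then `x ∈ P`, `f x = 1`.
Write `x_k = ∑_{a ∈ F} c_{k,a} a`, `c_{k,a} ≥ 0` (`mem_hull_finset` of `Pad47bb.Poly`); since
`f x_k = 1` some `c_{k,a} f a ≥ 1 / |F|`, so `c_{k,a} ≥ d := 1 / (|F| max f a)`; hence
`x_k - d • a ∈ N` for this `a`. Thickness of `x_k`: `y_k ∈ L` interior, `T_k > 0`,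
`T_k x_k - y_k ∈ N`, and no nonzero lattice point `v ∈ N` has `ε T_k x_k - v ∈ N`. With `v = a`:
`ε T_k < 1 / d` (otherwise `ε T_k x_k - a = ε T_k (x_k - d a) + (ε T_k d - 1) a ∈ N`). So
`T_k ≤ 1 / (ε d) =: B` and `B x_k - y_k ∈ N` (as `x_k ∈ N`), `ε' ‖y_k‖ ≤ f y_k ≤ B`: the `y_k` lie in a
finite set (`finite_of_bounded`) of interior lattice points. So for infinitely many `k` (or use that
`Q` is contained in the finite union over these `y` of the closed sets
`{x | B x - y ∈ N, f x = 1, x ∈ P}`), `B x - y ∈ N` with `y` interior: `x` is interior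
(`interior_add_mem`, `interior_smul_mem`). In fact the cleanest is: `Q ⊆ Q' :=` this finite union,
`Q'` is compact and contained in `interior N`.
Estimated 1.2 h.
-/

open Set Topology

namespace Pool.Agent.Lib.Pad47bbV

open Pool.Agent.Lib.Pad47bb Pool.Agent.Lib.Pad47bbQ

variable {V : Type*} [NormedAddCommGroup V] [NormedSpace ℝ V] [FiniteDimensional ℝ V]
  {L : Submodule ℤ V} [DiscreteTopology L] [IsZLattice ℝ L]

omit [FiniteDimensional ℝ V] in
theorem ne_zero_of_interior [Nontrivial V] {N : PointedCone ℝ V} (hN : Good N) {x : V}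
    (hx : x ∈ interior (N : Set V)) : x ≠ 0 := by
  rintro rfl
  obtain ⟨v, hv⟩ := exists_ne (0 : V)
  rw [mem_interior_iff_mem_nhds, Metric.mem_nhds_iff] at hx
  obtain ⟨r, hr, hball⟩ := hx
  have hnv : 0 < ‖v‖ := norm_pos_iff.mpr hv
  have ht : 0 < r / (2 * ‖v‖) := by positivity
  have hnorm : ‖(r / (2 * ‖v‖)) • v‖ < r := by
    rw [norm_smul, Real.norm_of_nonneg ht.le]
    have : r / (2 * ‖v‖) * ‖v‖ = r / 2 := by
      field_simp
    rw [this]
    linarith
  have h1 : (r / (2 * ‖v‖)) • v ∈ N := hball (by simpa using hnorm)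
  have h2 : -((r / (2 * ‖v‖)) • v) ∈ N := hball (by simpa using hnorm)
  have h3 := hN.salient _ h1 h2
  rcases smul_eq_zero.mp h3 with h | h
  · exact ht.ne' h
  · exact hv h

omit [FiniteDimensional ℝ V] in
theorem sub_smul_mem {N : PointedCone ℝ V} {F : Finset V} (hF : ∀ a ∈ F, a ∈ N) {c : V → ℝ}
    (hc : ∀ a ∈ F, 0 ≤ c a) {a : V} (ha : a ∈ F) {d : ℝ} (hd : d ≤ c a) :
    ∑ b ∈ F, c b • b - d • a ∈ N := by
  classical
  rw [← Finset.add_sum_erase F (fun b => c b • b) ha]
  have e : c a • a + ∑ b ∈ F.erase a, c b • b - d • a =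
      (c a - d) • a + ∑ b ∈ F.erase a, c b • b := by
    rw [sub_smul]
    abel
  rw [e]
  refine N.add_mem (PointedCone.smul_mem _ (by linarith) (hF a ha)) ?_
  exact Submodule.sum_mem _ fun b hb =>
    PointedCone.smul_mem _ (hc b (Finset.mem_of_mem_erase hb)) (hF b (Finset.mem_of_mem_erase hb))

theorem thickCocompact_of_cover [Nontrivial V] {N : PointedCone ℝ V} (hN : Good N)
    {Γ : Subgroup (V ≃ₗ[ℝ] V)} (hA : Acts L N Γ) (F : Finset V)
    (hF : ∀ a ∈ F, a ∈ L ∧ a ∈ N)
    (hcov : ∀ x ∈ interior (N : Set V), ∃ g ∈ Γ, g x ∈ PointedCone.hull ℝ (F : Set V)) :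
    ThickCocompact L N Γ := by
  classical
  have hcl : closure (N : Set V) = (N : Set V) := hN.closed.closure_eq
  obtain ⟨f, hf⟩ := exists_pos N (by
    rw [hcl]
    exact fun x hx hx' => hN.salient x hx hx')
  obtain ⟨ε', hε', hb⟩ := exists_bound N f hf
  rw [hcl] at hf hb
  have hf0 : ∀ x ∈ N, 0 ≤ f x := by
    intro x hx
    by_cases h : x = 0
    · rw [h, map_zero]
    · exact (hf x hx h).le
  intro ε hε
  set S : ℝ := ∑ a ∈ F, f a with hS
  have hS0 : 0 ≤ S := Finset.sum_nonneg fun a ha => hf0 a (hF a ha).2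
  set D : ℝ := ((F.card : ℝ) + 1) * (S + 1) with hD
  have hD0 : 0 < D := by positivity
  set B : ℝ := D / ε with hB
  have hB0 : 0 < B := by positivity
  -- the finite set of lattice points
  have hYfin : {y : V | y ∈ L ∧ y ∈ interior (N : Set V) ∧ f y ≤ B}.Finite := by
    refine (finite_of_bounded L (B / ε')).subset ?_
    rintro y ⟨h1, h2, h3⟩
    refine ⟨h1, ?_⟩
    rw [le_div_iff₀ hε']
    have := hb y (interior_subset h2)
    linarith
  -- the compact set
  refine ⟨⋃ y ∈ {y : V | y ∈ L ∧ y ∈ interior (N : Set V) ∧ f y ≤ B},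
    {x : V | x ∈ N ∧ f x = 1 ∧ B • x - y ∈ N}, ?_, ?_, ?_⟩
  · refine hYfin.isCompact_biUnion fun y _ => ?_
    apply Metric.isCompact_of_isClosed_isBounded
    · have h1 : IsClosed {x : V | x ∈ N} := hN.closed
      have h2 : IsClosed {x : V | f x = 1} := isClosed_eq f.continuous continuous_const
      have h3 : IsClosed {x : V | B • x - y ∈ N} :=
        hN.closed.preimage ((continuous_const_smul B).sub continuous_const)
      exact h1.inter (h2.inter h3)
    · rw [Metric.isBounded_iff_subset_closedBall 0]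
      refine ⟨1 / ε', ?_⟩
      rintro x ⟨h1, h2, -⟩
      rw [mem_closedBall_zero_iff, le_div_iff₀ hε']
      have := hb x h1
      linarith
  · intro x hx
    simp only [mem_iUnion] at hx
    obtain ⟨y, ⟨-, hy2, -⟩, -, -, hx3⟩ := hx
    have h1 : y + (B • x - y) ∈ interior (N : Set V) := interior_add_mem hy2 hx3
    rw [add_sub_cancel] at h1
    have h2 := interior_smul_mem h1 (inv_pos.mpr hB0)
    rwa [smul_smul, inv_mul_cancel₀ hB0.ne', one_smul] at h2
  · rintro x hx ⟨y, hyL, hyN, T, hT, hTy, hthick⟩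
    obtain ⟨g, hg, hgx⟩ := hcov x hx
    have hgxN : g x ∈ interior (N : Set V) := interior_map_mem (hA.map_cone g hg) hx
    have hgx0 : g x ≠ 0 := ne_zero_of_interior hN hgxN
    have hfg : 0 < f (g x) := hf _ (interior_subset hgxN) hgx0
    obtain ⟨c, hc, hceq⟩ := mem_hull_finset.1 hgx
    -- some coefficient is large
    have hsum : f (g x) = ∑ a ∈ F, c a * f a := by
      rw [hceq, map_sum]
      exact Finset.sum_congr rfl fun a _ => by rw [map_smul, smul_eq_mul]
    have hne : F.Nonempty := by
      rw [Finset.nonempty_iff_ne_empty]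
      rintro rfl
      rw [Finset.sum_empty] at hsum
      linarith
    obtain ⟨a, ha, hca⟩ : ∃ a ∈ F, f (g x) / F.card ≤ c a * f a := by
      by_contra hcon
      push Not at hcon
      have h1 : ∑ a ∈ F, c a * f a < ∑ _a ∈ F, f (g x) / F.card :=
        Finset.sum_lt_sum_of_nonempty hne hcon
      rw [Finset.sum_const, nsmul_eq_mul, mul_div_cancel₀] at h1
      · linarith
      · exact_mod_cast hne.card_pos.ne'
    have hcard : (0 : ℝ) < F.card := by exact_mod_cast hne.card_pos
    have hfa : 0 < f a := by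
      rcases lt_or_eq_of_le (hf0 a (hF a ha).2) with h | h
      · exact h
      · rw [← h, mul_zero] at hca
        have : 0 < f (g x) / F.card := by positivity
        linarith
    have ha0 : a ≠ 0 := by
      rintro rfl
      rw [map_zero] at hfa
      exact lt_irrefl _ hfa
    have hfaS : f a ≤ S := Finset.single_le_sum (fun b hb => hf0 b (hF b hb).2) ha
    -- `d = f (g x) / D`
    have hd : f (g x) / D ≤ c a := by
      have h1 : f (g x) / (F.card * f a) ≤ c a := by
        rw [div_le_iff₀ (by positivity)]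
        rw [div_le_iff₀ hcard] at hca
        linarith
      refine le_trans ?_ h1
      apply div_le_div_of_nonneg_left hfg.le (by positivity)
      rw [hD]
      nlinarith
    have hsub : g x - (f (g x) / D) • a ∈ N := by
      have := sub_smul_mem (fun a ha => (hF a ha).2) hc ha hd
      rwa [← hceq] at this
    -- `T` is small
    have hgN : ∀ u ∈ N, g⁻¹ u ∈ N := hA.map_cone g⁻¹ (Γ.inv_mem hg)
    have hgL : ∀ u ∈ L, g⁻¹ u ∈ L := hA.map_lattice g⁻¹ (Γ.inv_mem hg)
    have hginv : ∀ u : V, g⁻¹ (g u) = u := fun u => g.symm_apply_apply u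
    have hTB : T * f (g x) ≤ B := by
      by_contra hcon
      push Not at hcon
      have h1 : 1 ≤ ε * T * (f (g x) / D) := by
        rw [hB, div_lt_iff₀ hε] at hcon
        rw [← mul_div_assoc, le_div_iff₀ hD0]
        linarith
      have h2 : (ε * T) • g x - a ∈ N := by
        have e : (ε * T) • g x - a = (ε * T) • (g x - (f (g x) / D) • a) +
            (ε * T * (f (g x) / D) - 1) • a := by
          rw [smul_sub, smul_smul, sub_smul, one_smul]
          abel
        rw [e]
        exact N.add_mem (PointedCone.smul_mem _ (by positivity) hsub)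
          (PointedCone.smul_mem _ (by linarith) (hF a ha).2)
      have h3 := hgN _ h2
      rw [map_sub, map_smul, hginv] at h3
      refine hthick (g⁻¹ a) (hgL a (hF a ha).1) (hgN a (hF a ha).2) ?_ h3
      intro h4
      apply ha0
      have h5 := congrArg g h4
      rw [map_zero] at h5
      have h6 : g (g⁻¹ a) = a := g.apply_symm_apply a
      rwa [h6] at h5
    refine ⟨g, hg, (f (g x))⁻¹, inv_pos.mpr hfg, ?_⟩
    simp only [mem_iUnion]
    have hgy : g y ∈ interior (N : Set V) := interior_map_mem (hA.map_cone g hg) hyN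
    have hTgy : T • g x - g y ∈ N := by
      have := hA.map_cone g hg _ hTy
      rwa [map_sub, map_smul] at this
    refine ⟨g y, ⟨hA.map_lattice g hg y hyL, hgy, ?_⟩, ?_, ?_, ?_⟩
    · have h1 := hf0 _ hTgy
      rw [map_sub, map_smul, smul_eq_mul] at h1
      linarith
    · exact PointedCone.smul_mem _ (inv_pos.mpr hfg).le (interior_subset hgxN)
    · rw [map_smul, smul_eq_mul, inv_mul_cancel₀ hfg.ne']
    · have e : B • (f (g x))⁻¹ • g x - g y =
          (B * (f (g x))⁻¹ - T) • g x + (T • g x - g y) := by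
        rw [smul_smul, sub_smul]
        abel
      rw [e]
      refine N.add_mem (PointedCone.smul_mem _ ?_ (interior_subset hgxN)) hTgy
      rw [sub_nonneg, ← div_eq_mul_inv, le_div_iff₀ hfg]
      exact hTB

end Pool.Agent.Lib.Pad47bbV
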