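import Pool.Agent.Lib.Pad47bbV.Boundary
import Pool.Agent.Lib.Pad47bb.Exist

/-!
When the thick points are cocompact, `Γ` has a rational polyhedral fundamental domain on the cone
generated by the lattice points of `N`.

`exists_cover`. Let `n = finrank ℝ V`, let `c, M` be the constants of `transfer` for `T = n`, and
let `F` be the finite set of the `v ∈ L`, `v ∈ N` with `c ‖v‖ ≤ 1` (`finite_of_bounded`). Let `x` be
interior and `ξ, A` as in `exists_perfect` (with `H = isPos_of_isForm`). `A` contains a basis of `V`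
with `n` elements (`exists_linearIndependent`); its sum `y` is a lattice point with `ξ y = n`, and it
is interior in `N`: the cone generated by a basis has nonempty interior containing the sum (use
`sum_interior` of `Pad47bbQ.Closing`, or: the map `V → (Fin n → ℝ)` of coordinates is continuous and
the set of points with positive coordinates is open, contained in `N`). By `transfer` there is
`g ∈ Γ` with `c ‖y‖ ≤ ξ (g y)` for `y ∈ N`. For `a ∈ A` put `v = g⁻¹ a`, a lattice point of `N` with
`c ‖v‖ ≤ ξ a = 1`, so `v ∈ F`. Hence `g⁻¹ x ∈ hull (g⁻¹ A) ⊆ hull F`.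

`hasRPFD_ratHull`. Put `K = ratHull L N`. `Setting L K Γ` holds (`K ≤ N`; `interior K` contains
`interior N`: every interior point of `N` lies in `hull F'` for some finite set `F'` of lattice
points of `N`, by `exists_cover` and the action of `Γ`; so `interior N ⊆ K`). Every `x ∈ K` is in the
hull of a finite set of lattice points of `K` (`Submodule.mem_span_finite_of_mem_span`). `closing` of
`Pad47bbQ.Closing` gives: every `x ∈ K` is `g y` with `y ∈ hull F`; then `exists_fundDomain` of
`Pad47bb.Exist` gives `HasRPFD L Γ K`. (`interior K ⊆ interior N` as `K ≤ N`.)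
Estimated 1.5 h.
-/

open Set Topology

namespace Pool.Agent.Lib.Pad47bbV

open Pool.Agent.Lib.Pad47bb Pool.Agent.Lib.Pad47bbQ

variable {V : Type*} [NormedAddCommGroup V] [NormedSpace ℝ V] [FiniteDimensional ℝ V]
  {L : Submodule ℤ V} [DiscreteTopology L] [IsZLattice ℝ L]

/-- the sum of a spanning independent subset of `A` is interior -/
theorem coverAux_basis {N : PointedCone ℝ V} (ξ : V →L[ℝ] ℝ) (A : Finset V)
    (hA : ∀ a ∈ A, a ∈ L ∧ a ∈ N ∧ ξ a = 1) (hspan : Submodule.span ℝ (A : Set V) = ⊤) :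
    ∃ y ∈ L, y ∈ interior (N : Set V) ∧ ξ y ≤ Module.finrank ℝ V := by
  classical
  obtain ⟨b, hbA, hbspan, hli⟩ := exists_linearIndependent ℝ (A : Set V)
  have hbfin : b.Finite := A.finite_toSet.subset hbA
  haveI : Fintype b := hbfin.fintype
  let B : Module.Basis b ℝ V := Module.Basis.mk hli (by
    rw [Subtype.range_coe, hbspan, hspan])
  have hB : ∀ i : b, B i = (i : V) := fun i => by simp [B]
  have hmem : ∀ i : b, (i : V) ∈ L ∧ (i : V) ∈ N ∧ ξ (i : V) = 1 := fun i => hA _ (hbA i.2)
  refine ⟨∑ i : b, (i : V), Submodule.sum_mem _ fun i _ => (hmem i).1, ?_, ?_⟩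
  · rw [mem_interior]
    refine ⟨⋂ i : b, {v : V | 0 < B.coord i v}, ?_, ?_, ?_⟩
    · intro v hv
      rw [mem_iInter] at hv
      have : v = ∑ i : b, B.coord i v • (i : V) := by
        conv_lhs => rw [← B.sum_repr v]
        refine Finset.sum_congr rfl fun i _ => ?_
        rw [hB]; rfl
      rw [this]
      refine N.sum_mem fun i _ => PointedCone.smul_mem N (le_of_lt (hv i)) (hmem i).2.1
    · refine isOpen_iInter_of_finite fun i => ?_
      exact isOpen_lt continuous_const (LinearMap.continuous_of_finiteDimensional (B.coord i))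
    · rw [mem_iInter]
      intro i
      change 0 < B.coord i (∑ j : b, (j : V))
      have : B.coord i (∑ j : b, (j : V)) = 1 := by
        have e : (∑ j : b, (j : V)) = ∑ j : b, B j := Finset.sum_congr rfl fun j _ => (hB j).symm
        rw [e, map_sum]
        simp only [Module.Basis.coord_apply, Module.Basis.repr_self]
        rw [Finset.sum_eq_single i]
        · simp
        · intro j _ hj
          simp [hj]
        · simp
      rw [this]; exact one_pos
  · rw [map_sum, Module.finrank_eq_card_basis B]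
    simp [(hmem _).2.2]

theorem exists_cover [Nontrivial V] {N : PointedCone ℝ V} (hN : Good N)
    {Γ : Subgroup (V ≃ₗ[ℝ] V)} (hA : Acts L N Γ) (h : ThickCocompact L N Γ) :
    ∃ F : Finset V, (∀ a ∈ F, a ∈ L ∧ a ∈ N) ∧ ∀ x ∈ interior (N : Set V),
      ∃ g ∈ Γ, g x ∈ PointedCone.hull ℝ (F : Set V) := by
  classical
  have hn : (0 : ℝ) < Module.finrank ℝ V := by exact_mod_cast Module.finrank_pos
  obtain ⟨c, hc, M, hM, hT⟩ := transfer hN hA h hn
  have hfin : {v : V | (v ∈ L ∧ ‖v‖ ≤ 1 / c) ∧ v ∈ N}.Finite :=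
    (finite_of_bounded L (1 / c)).subset fun v hv => hv.1
  refine ⟨hfin.toFinset, fun a ha => ?_, fun x hx => ?_⟩
  · rw [Set.Finite.mem_toFinset] at ha
    exact ⟨ha.1.1, ha.2⟩
  · obtain ⟨ξ, hform, A, hA1, hspan, hxA⟩ := exists_perfect hN
      (fun ξ hξ => isPos_of_isForm hN hA h ξ hξ) hx
    obtain ⟨y, hyL, hyint, hyn⟩ := coverAux_basis ξ A hA1 hspan
    obtain ⟨g, hg, hlow, -⟩ := hT ξ hform (isPos_of_isForm hN hA h ξ hform) ⟨y, hyL, hyint, hyn⟩
    have hgi : g⁻¹ ∈ Γ := inv_mem hg
    have hgg : ∀ v : V, g (g⁻¹ v) = v := fun v => g.apply_symm_apply v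
    refine ⟨g⁻¹, hgi, ?_⟩
    obtain ⟨d, hd, hxd⟩ := mem_hull_finset.1 hxA
    rw [hxd, map_sum]
    refine Submodule.sum_mem _ fun a ha => ?_
    rw [map_smul]
    refine PointedCone.smul_mem _ (hd a ha) (Submodule.subset_span ?_)
    obtain ⟨h1, h2, h3⟩ := hA1 a ha
    rw [Set.Finite.coe_toFinset]
    refine ⟨⟨hA.map_lattice _ hgi _ h1, ?_⟩, hA.map_cone _ hgi _ h2⟩
    have h4 := hlow (g⁻¹ a) (hA.map_cone _ hgi _ h2)
    rw [hgg, h3] at h4
    rw [le_div_iff₀ hc, mul_comm]
    exact h4

theorem hasRPFD_ratHull [Nontrivial V] {N : PointedCone ℝ V} (hN : Good N)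
    {Γ : Subgroup (V ≃ₗ[ℝ] V)} (hA : Acts L N Γ) (h : ThickCocompact L N Γ) :
    HasRPFD L Γ (ratHull L N) := by
  classical
  obtain ⟨F, hF, hcov⟩ := exists_cover hN hA h
  have hKN : ratHull L N ≤ N := Submodule.span_le.2 fun v hv => hv.1
  have hFK : (F : Set V) ⊆ ratHull L N := fun a ha =>
    Submodule.subset_span ⟨(hF a ha).2, (hF a ha).1⟩
  have hhull : PointedCone.hull ℝ (F : Set V) ≤ ratHull L N := Submodule.span_le.2 hFK
  have hmap : ∀ g ∈ Γ, ∀ x ∈ ratHull L N, g x ∈ ratHull L N := by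
    intro g hg x hx
    refine Submodule.span_induction (p := fun x _ => g x ∈ ratHull L N) ?_ ?_ ?_ ?_ hx
    · intro v hv
      exact Submodule.subset_span ⟨hA.map_cone g hg v hv.1, hA.map_lattice g hg v hv.2⟩
    · rw [map_zero]; exact zero_mem _
    · intro u v _ _ hu hv
      rw [map_add]; exact add_mem hu hv
    · rintro ⟨r, hr⟩ u _ hu
      have : g ((⟨r, hr⟩ : {c : ℝ // 0 ≤ c}) • u) = r • g u := map_smul g r u
      rw [this]
      exact PointedCone.smul_mem _ hr hu
  have hint : interior (N : Set V) ⊆ ratHull L N := by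
    intro x hx
    obtain ⟨g, hg, hgx⟩ := hcov x hx
    have h1 := hmap g⁻¹ (inv_mem hg) _ (hhull hgx)
    have h2 : g⁻¹ (g x) = x := g.symm_apply_apply x
    rwa [h2] at h1
  have hint2 : interior (N : Set V) ⊆ interior (ratHull L N : Set V) :=
    interior_maximal hint isOpen_interior
  have hint3 : interior (ratHull L N : Set V) ⊆ interior (N : Set V) := interior_mono hKN
  have hcl : closure (ratHull L N : Set V) ⊆ N := closure_minimal hKN hN.closed
  have S : Setting L (ratHull L N) Γ :=
    { salient := fun x hx hx' => hN.salient x (hcl hx) (hcl hx')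
      interior_nonempty := hN.interior_nonempty.mono hint2
      map_lattice := hA.map_lattice
      map_cone := hmap }
  have hFL : (F : Set V) ⊆ L := fun a ha => (hF a ha).1
  have hall := closing S F hFL hFK (fun x hx => by
    obtain ⟨T, hT, hxT⟩ := Submodule.mem_span_finite_of_mem_span hx
    exact ⟨T, fun a ha => (hT ha).2, fun a ha => Submodule.subset_span (hT ha), hxT⟩)
    (fun x hx => by
      obtain ⟨g, hg, hgx⟩ := hcov x (hint3 hx)
      exact ⟨g⁻¹, inv_mem hg, g x, hgx, g.symm_apply_apply x⟩)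
  refine exists_fundDomain S (P₁ := PointedCone.hull ℝ (F : Set V)) ⟨F, hFL, rfl⟩ ?_
  ext x
  constructor
  · intro hx
    obtain ⟨g, hg, y, hy, hyx⟩ := hall x hx
    exact mem_biUnion hg ⟨y, hy, hyx⟩
  · intro hx
    rw [mem_iUnion₂] at hx
    obtain ⟨g, hg, y, hy, rfl⟩ := hx
    exact hmap g hg y (hhull hy)

end Pool.Agent.Lib.Pad47bbV
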