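import Pool.Agent.Lib.Pad47bbV.Volume
import Pool.Agent.Lib.Pad47bbV.Cover
import Pool.Agent.Lib.Pad47bbV.Converse

/-!
The characterisation of the cones `M` between the interior of `N` and `N` on which `Γ` has a
rational polyhedral fundamental domain.
-/

open Set Topology MeasureTheory
open scoped ENNReal

namespace Pool.Agent.Lib.Pad47bbV

open Pool.Agent.Lib.Pad47bb Pool.Agent.Lib.Pad47bbQ

variable {V : Type*} [NormedAddCommGroup V] [NormedSpace ℝ V] [FiniteDimensional ℝ V]
  {L : Submodule ℤ V} [DiscreteTopology L] [IsZLattice ℝ L]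

omit [FiniteDimensional ℝ V] [DiscreteTopology L] [IsZLattice ℝ L] in
theorem ratHull_le {N : PointedCone ℝ V} : ratHull L N ≤ N :=
  Submodule.span_le.2 fun _ hx => hx.1

omit [FiniteDimensional ℝ V] [DiscreteTopology L] [IsZLattice ℝ L] in
theorem ratHull_map {N : PointedCone ℝ V} {Γ : Subgroup (V ≃ₗ[ℝ] V)} (hA : Acts L N Γ)
    {g : V ≃ₗ[ℝ] V} (hg : g ∈ Γ) {x : V} (hx : x ∈ ratHull L N) : g x ∈ ratHull L N := by
  unfold ratHull at hx ⊢
  induction hx using Submodule.span_induction with
  | mem x hx =>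
    exact Submodule.subset_span ⟨hA.map_cone g hg x hx.1, hA.map_lattice g hg x hx.2⟩
  | zero => rw [map_zero]; exact Submodule.zero_mem _
  | add x y _ _ ihx ihy => rw [map_add]; exact Submodule.add_mem _ ihx ihy
  | smul c x _ ih =>
    have h1 : g (c • x) = c • g x := by
      exact map_smul g c.1 x
    rw [h1]
    exact Submodule.smul_mem _ c ih

omit [FiniteDimensional ℝ V] [DiscreteTopology L] [IsZLattice ℝ L] in
theorem exists_finset_of_ratHull {N : PointedCone ℝ V} {x : V} (hx : x ∈ ratHull L N) :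
    ∃ u : Finset V, (u : Set V) ⊆ L ∧ (u : Set V) ⊆ ratHull L N ∧
      x ∈ PointedCone.hull ℝ (u : Set V) := by
  obtain ⟨u, hu, hxu⟩ := Submodule.mem_span_finite_of_mem_span hx
  exact ⟨u, fun a ha => (hu ha).2, fun a ha => Submodule.subset_span (hu ha), hxu⟩

/-- `Γ` has a rational polyhedral fundamental domain on a cone `M` between the interior of `N` and
`N` if and only if `M` is generated by the lattice points of `N` and `Γ` is cocompact, modulo
scaling, on the thick points. -/
theorem hasRPFD_iff [Nontrivial V] {N : PointedCone ℝ V} (hN : Good N)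
    {Γ : Subgroup (V ≃ₗ[ℝ] V)} (hA : Acts L N Γ) {M : PointedCone ℝ V}
    (hM1 : interior (N : Set V) ⊆ M) (hM2 : M ≤ N) :
    HasRPFD L Γ M ↔ M = ratHull L N ∧ ThickCocompact L N Γ := by
  constructor
  · rintro ⟨P, ⟨s, hsL, rfl⟩, hcov, -⟩
    have hPM : PointedCone.hull ℝ (s : Set V) ≤ M := by
      intro x hx
      show x ∈ (M : Set V)
      rw [hcov]
      exact mem_biUnion (one_mem Γ) ⟨x, hx, rfl⟩
    have hsM : ∀ a ∈ s, a ∈ M := fun a ha => hPM (Submodule.subset_span ha)
    have hsK : ∀ a ∈ s, a ∈ ratHull L N := fun a ha =>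
      Submodule.subset_span ⟨hM2 (hsM a ha), hsL ha⟩
    have hex : ∀ x ∈ M, ∃ g ∈ Γ, ∃ y ∈ PointedCone.hull ℝ (s : Set V), g y = x := by
      intro x hx
      have hx' : x ∈ (M : Set V) := hx
      rw [hcov] at hx'
      simp only [mem_iUnion] at hx'
      obtain ⟨g, hg, y, hy, hyx⟩ := hx'
      exact ⟨g, hg, y, hy, hyx⟩
    have hMK : M ≤ ratHull L N := by
      intro x hx
      obtain ⟨g, hg, y, hy, rfl⟩ := hex x hx
      refine ratHull_map hA hg ?_
      exact (Submodule.span_le.2 fun a ha => hsK a ha) hy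
    have hS : Setting L (ratHull L N) Γ := by
      refine ⟨?_, ?_, hA.map_lattice, fun g hg x hx => ratHull_map hA hg hx⟩
      · intro x hx hx'
        have hcl : closure (ratHull L N : Set V) ⊆ (N : Set V) :=
          closure_minimal (fun y hy => ratHull_le hy) hN.closed
        exact hN.salient x (hcl hx) (hcl hx')
      · obtain ⟨e, he⟩ := hN.interior_nonempty
        refine ⟨e, ?_⟩
        rw [mem_interior]
        exact ⟨interior (N : Set V), fun y hy => hMK (hM1 hy), isOpen_interior, he⟩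
    have hKM : ratHull L N ≤ M := by
      intro x hx
      obtain ⟨g, hg, y, hy, rfl⟩ := closing hS s hsL (fun a ha => hsK a ha)
        (fun x hx => exists_finset_of_ratHull hx) (fun x hx => hex x (hM1
          (interior_mono (fun y hy => ratHull_le hy) hx))) x hx
      show g y ∈ (M : Set V)
      rw [hcov]
      exact mem_biUnion hg ⟨y, hy, rfl⟩
    refine ⟨le_antisymm hMK hKM, ?_⟩
    refine thickCocompact_of_cover hN hA s (fun a ha => ⟨hsL ha, hM2 (hsM a ha)⟩) ?_
    intro x hx
    obtain ⟨g, hg, y, hy, rfl⟩ := hex x (hM1 hx)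
    refine ⟨g⁻¹, inv_mem hg, ?_⟩
    have e : g⁻¹ (g y) = y := g.symm_apply_apply y
    rw [e]
    exact hy
  · rintro ⟨rfl, h⟩
    exact hasRPFD_ratHull hN hA h

end Pool.Agent.Lib.Pad47bbV
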