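import Mathlib
import Pool.Agent.Lib.Pad47bb.Basic

/-!
Finite volume and the cone conjecture: definitions.

`N` is a closed convex cone in `V` containing no line, with nonempty interior; it orders `V` by
`x ≤ y` iff `y - x ∈ N`.  `L` is a lattice and `Γ` a group of automorphisms of `V` preserving `L`
and `N`.
-/

open Set Topology MeasureTheory
open scoped ENNReal

namespace Pool.Agent.Lib.Pad47bbV

open Pool.Agent.Lib.Pad47bb

variable {V : Type*} [NormedAddCommGroup V] [NormedSpace ℝ V]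

/-- closed convex cone with nonempty interior containing no line -/
structure Good (N : PointedCone ℝ V) : Prop where
  closed : IsClosed (N : Set V)
  salient : ∀ x ∈ N, -x ∈ N → x = 0
  interior_nonempty : (interior (N : Set V)).Nonempty

/-- `Γ` preserves the lattice `L` and the cone `N` -/
structure Acts (L : Submodule ℤ V) (N : PointedCone ℝ V) (Γ : Subgroup (V ≃ₗ[ℝ] V)) : Prop where
  map_lattice : ∀ g ∈ Γ, ∀ x ∈ L, g x ∈ L
  map_cone : ∀ g ∈ Γ, ∀ x ∈ N, g x ∈ N

/-- the cone generated by the lattice points of `N` -/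
def ratHull (L : Submodule ℤ V) (N : PointedCone ℝ V) : PointedCone ℝ V :=
  PointedCone.hull ℝ ((N : Set V) ∩ (L : Set V))

/-- the symmetric order interval `-x ≤ z ≤ x` -/
def sball (N : PointedCone ℝ V) (x : V) : Set V := {z | x - z ∈ N ∧ x + z ∈ N}

/-- `h` moves the points of the order interval `[-x, x]` by at most `δ x` -/
def Small (N : PointedCone ℝ V) (δ : ℝ) (x : V) (h : V ≃ₗ[ℝ] V) : Prop :=
  ∀ z ∈ sball N x, δ • x - (h z - z) ∈ N ∧ δ • x + (h z - z) ∈ N

/-- some lattice point `y` in the interior of `N` is at most `T x`, but no nonzero lattice point of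
`N` is at most `ε T x` -/
def Thick (L : Submodule ℤ V) (N : PointedCone ℝ V) (ε : ℝ) (x : V) : Prop :=
  ∃ y ∈ L, y ∈ interior (N : Set V) ∧ ∃ T : ℝ, 0 < T ∧ T • x - y ∈ N ∧
    ∀ v ∈ L, v ∈ N → v ≠ 0 → (ε * T) • x - v ∉ N

/-- `Γ` acts cocompactly, modulo scaling, on the `ε`-thick points, for every `ε > 0` -/
def ThickCocompact (L : Submodule ℤ V) (N : PointedCone ℝ V) (Γ : Subgroup (V ≃ₗ[ℝ] V)) : Prop :=
  ∀ ε : ℝ, 0 < ε → ∃ Q : Set V, IsCompact Q ∧ Q ⊆ interior (N : Set V) ∧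
    ∀ x ∈ interior (N : Set V), Thick L N ε x → ∃ g ∈ Γ, ∃ s : ℝ, 0 < s ∧ s • g x ∈ Q

/-- `x` is a companion of the functional `ξ` -/
def Comp (N : PointedCone ℝ V) (ξ : V →L[ℝ] ℝ) (x : V) : Prop :=
  ξ x = Module.finrank ℝ V ∧ ∀ y ∈ N, ξ y • x - y ∈ N

/-- functionals that are at least `1` at the nonzero lattice points of `N` -/
def IsForm (L : Submodule ℤ V) (N : PointedCone ℝ V) (ξ : V →L[ℝ] ℝ) : Prop :=
  ∀ v ∈ L, v ∈ N → v ≠ 0 → 1 ≤ ξ v

/-- positivity on `N` minus `0` -/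
def IsPos (N : PointedCone ℝ V) (ξ : V →L[ℝ] ℝ) : Prop := ∀ x ∈ N, x ≠ 0 → 0 < ξ x

/-- the volume of the order interval `0 ≤ y ≤ x` -/
noncomputable def orderVol [MeasurableSpace V] (μ : Measure V) (N : PointedCone ℝ V) (x : V) :
    ℝ≥0∞ := μ {y | y ∈ N ∧ x - y ∈ N}

/-- The quotient by `Γ` of the region of the interior of `N` where the order interval `[0, x]` has
volume at most `1` has finite volume. -/
def FiniteVolume [MeasurableSpace V] (μ : Measure V) (N : PointedCone ℝ V)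
    (Γ : Subgroup (V ≃ₗ[ℝ] V)) : Prop :=
  ∃ D : Set V, MeasurableSet D ∧ μ D < ∞ ∧
    ∀ x ∈ interior (N : Set V), orderVol μ N x ≤ 1 → ∃ g ∈ Γ, g x ∈ D

end Pool.Agent.Lib.Pad47bbV
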