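import Pool.Agent.Lib.Pad47bbV.Defs

/-!
Auerbach type basis: a compact spanning set `S` contains a basis in which all points of `S` have
coordinates of absolute value at most `1`.

The function `y ↦ |b₀.det y|` is continuous on the compact set of families in `S`; a maximum is a
basis of the required kind (Cramer's rule).
-/

open Set Topology

namespace Pool.Agent.Lib.Pad47bbV

variable {V : Type*} [NormedAddCommGroup V] [NormedSpace ℝ V] [FiniteDimensional ℝ V]

theorem continuous_basis_det {ι : Type*} [Fintype ι] [DecidableEq ι] (b : Module.Basis ι ℝ V) :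
    Continuous (fun y : ι → V => b.det y) := by
  simp only [Module.Basis.det_apply]
  apply Continuous.matrix_det
  apply continuous_pi
  intro i
  apply continuous_pi
  intro j
  have h : Continuous (b.coord i) := LinearMap.continuous_of_finiteDimensional _
  exact h.comp (continuous_apply j)

theorem basis_det_update {ι : Type*} [Fintype ι] [DecidableEq ι] (b : Module.Basis ι ℝ V) (i : ι)
    (z : V) : b.det (Function.update b i z) = b.repr z i := by
  rw [Module.Basis.det_apply, Module.Basis.toMatrix_update, Module.Basis.toMatrix_self]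
  have h := Matrix.cramer_apply (1 : Matrix ι ι ℝ) (b.repr z) i
  rw [← h, Matrix.cramer_one]
  rfl

theorem exists_basis_mem {S : Set V} (hspan : Submodule.span ℝ S = ⊤) :
    ∃ b : Module.Basis (Fin (Module.finrank ℝ V)) ℝ V, ∀ i, b i ∈ S := by
  obtain ⟨B, hBS, hB, hli⟩ := exists_linearIndependent ℝ S
  have hB' : ⊤ ≤ Submodule.span ℝ (Set.range ((↑) : B → V)) := by
    rw [Subtype.range_coe, hB, hspan]
  let b := Module.Basis.mk hli hB'
  have : Fintype B := FiniteDimensional.fintypeBasisIndex b
  have hcard : Module.finrank ℝ V = Fintype.card B := Module.finrank_eq_card_basis b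
  let e : B ≃ Fin (Module.finrank ℝ V) := Fintype.equivFinOfCardEq hcard.symm
  refine ⟨b.reindex e, fun i => ?_⟩
  rw [Module.Basis.reindex_apply, Module.Basis.mk_apply]
  exact hBS (e.symm i).2

theorem exists_auerbach {S : Set V} (hS : IsCompact S) (hspan : Submodule.span ℝ S = ⊤) :
    ∃ b : Module.Basis (Fin (Module.finrank ℝ V)) ℝ V, (∀ i, b i ∈ S) ∧
      ∀ z ∈ S, ∀ i, |b.repr z i| ≤ 1 := by
  classical
  obtain ⟨b₁, hb₁⟩ := exists_basis_mem hspan
  have hcomp : IsCompact (Set.univ.pi (fun _ : Fin (Module.finrank ℝ V) => S)) :=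
    isCompact_univ_pi (fun _ => hS)
  have hcont : ContinuousOn (fun y : Fin (Module.finrank ℝ V) → V => |b₁.det y|)
      (Set.univ.pi (fun _ => S)) := (continuous_basis_det b₁).abs.continuousOn
  obtain ⟨y, hy, hmax⟩ := hcomp.exists_isMaxOn ⟨b₁, fun i _ => hb₁ i⟩ hcont
  have hpos : 0 < |b₁.det y| := by
    have h1 : |b₁.det b₁| ≤ |b₁.det y| := hmax (fun i _ => hb₁ i)
    rw [Module.Basis.det_self, abs_one] at h1
    linarith
  have hunit : IsUnit (b₁.det y) := isUnit_iff_ne_zero.mpr (abs_pos.mp hpos)
  obtain ⟨hli, hsp⟩ := (Module.Basis.is_basis_iff_det b₁).mpr hunit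
  let b := Module.Basis.mk hli hsp.ge
  have hb : (b : Fin (Module.finrank ℝ V) → V) = y := Module.Basis.coe_mk _ _
  refine ⟨b, fun i => by rw [hb]; exact hy i (Set.mem_univ i), fun z hz i => ?_⟩
  have h1 : b₁.det (Function.update y i z) = b₁.det y * b.repr z i := by
    have h2 := AlternatingMap.eq_smul_basis_det b b₁.det
    have h3 : b₁.det (Function.update (b : Fin (Module.finrank ℝ V) → V) i z) =
        b₁.det (b : Fin (Module.finrank ℝ V) → V) * b.det (Function.update b i z) := by
      conv_lhs => rw [h2]
      rfl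
    rw [basis_det_update, hb] at h3
    exact h3
  have h4 : |b₁.det (Function.update y i z)| ≤ |b₁.det y| := by
    apply hmax
    intro j _
    by_cases hj : j = i
    · subst hj; simpa using hz
    · rw [Function.update_of_ne hj]; exact hy j (Set.mem_univ j)
  rw [h1, abs_mul] at h4
  have h5 : |b₁.det y| * |b.repr z i| ≤ |b₁.det y| * 1 := by rw [mul_one]; exact h4
  exact le_of_mul_le_mul_left h5 hpos

end Pool.Agent.Lib.Pad47bbV
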