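import Pool.Agent.Lib.Pad47bbV.Defs
import Pool.Agent.Lib.Pad47bbQ.Closing

/-!
Perfect functionals (Voronoi, Koecher): if all forms are positive on `N` minus `0`, every interior
point is a nonnegative combination of the lattice points at which some form takes the value `1`.
-/

open Set Topology

namespace Pool.Agent.Lib.Pad47bbV

open Pool.Agent.Lib.Pad47bb Pool.Agent.Lib.Pad47bbQ

variable {V : Type*} [NormedAddCommGroup V] [NormedSpace ℝ V] [FiniteDimensional ℝ V]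
  {L : Submodule ℤ V} [DiscreteTopology L] [IsZLattice ℝ L]

omit [IsZLattice ℝ L] [DiscreteTopology L] in
/-- positive functionals are bounded below by a multiple of the norm -/
theorem lower_bound {N : PointedCone ℝ V} (hN : Good N) {ξ : V →L[ℝ] ℝ} (hpos : IsPos N ξ) :
    ∃ c : ℝ, 0 < c ∧ ∀ y ∈ N, c * ‖y‖ ≤ ξ y := by
  obtain ⟨c, hc, h⟩ := exists_bound N ξ (fun x hx => hpos x (by
    rwa [hN.closed.closure_eq] at hx))
  exact ⟨c, hc, fun y hy => h y (subset_closure hy)⟩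

omit [IsZLattice ℝ L] in
theorem finite_form_le {N : PointedCone ℝ V} (hN : Good N) {ξ : V →L[ℝ] ℝ} (hpos : IsPos N ξ)
    (B : ℝ) : {v : V | v ∈ L ∧ v ∈ N ∧ ξ v ≤ B}.Finite := by
  obtain ⟨c, hc, h⟩ := lower_bound hN hpos
  refine (finite_of_bounded L (B / c)).subset ?_
  rintro v ⟨hvL, hvN, hvB⟩
  refine ⟨hvL, ?_⟩
  rw [le_div_iff₀ hc, mul_comm]
  exact (h v hvN).trans hvB

omit [IsZLattice ℝ L] in
theorem perturb {N : PointedCone ℝ V} (hN : Good N) {ξ : V →L[ℝ] ℝ} (hξ : IsForm L N ξ)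
    (hpos : IsPos N ξ) (α : V →L[ℝ] ℝ) (hα : ∀ v ∈ L, v ∈ N → ξ v = 1 → 0 ≤ α v) :
    ∃ t₀ : ℝ, 0 < t₀ ∧ ∀ t : ℝ, 0 ≤ t → t ≤ t₀ → IsForm L N (ξ + t • α) := by
  obtain ⟨c, hc, hcb⟩ := lower_bound hN hpos
  have hfin := finite_form_le (L := L) hN hpos 2
  have h1 : ∀ᶠ t : ℝ in 𝓝[≥] 0, ∀ v ∈ {v : V | v ∈ L ∧ v ∈ N ∧ ξ v ≤ 2}, v ≠ 0 →
      1 ≤ ξ v + t * α v := by
    rw [Set.Finite.eventually_all hfin]
    rintro v ⟨hvL, hvN, -⟩
    by_cases hv0 : v = 0
    · filter_upwards with t ht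
      exact absurd hv0 ht
    · have hv1 := hξ v hvL hvN hv0
      rcases hv1.eq_or_lt with h | h
      · filter_upwards [self_mem_nhdsWithin] with t ht _
        have := mul_nonneg (show (0 : ℝ) ≤ t from ht) (hα v hvL hvN h.symm)
        linarith
      · have hcont : Filter.Tendsto (fun t : ℝ => ξ v + t * α v) (𝓝[≥] 0) (𝓝 (ξ v + 0 * α v)) :=
          ((continuous_const.add (continuous_id.mul continuous_const)).tendsto 0).mono_left
            nhdsWithin_le_nhds
        rw [zero_mul, add_zero] at hcont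
        filter_upwards [hcont.eventually (lt_mem_nhds h)] with t ht _
        exact ht.le
  have h2 : ∀ᶠ t : ℝ in 𝓝[≥] 0, t ≤ c / (2 * (‖α‖ + 1)) := by
    have : (0 : ℝ) < c / (2 * (‖α‖ + 1)) := by positivity
    exact nhdsWithin_le_nhds (ge_mem_nhds this)
  obtain ⟨u, hu, hsub⟩ := mem_nhdsGE_iff_exists_Ico_subset.1 (h1.and h2)
  have hu0 : (0 : ℝ) < u := hu
  refine ⟨u / 2, by positivity, fun t ht ht' v hvL hvN hv0 => ?_⟩
  obtain ⟨h3, h4⟩ := hsub (show t ∈ Ico 0 u from ⟨ht, by linarith⟩)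
  change 1 ≤ ξ v + t * α v
  by_cases hv2 : ξ v ≤ 2
  · exact h3 v ⟨hvL, hvN, hv2⟩ hv0
  · push Not at hv2
    have h5 : |α v| ≤ ‖α‖ * ‖v‖ := by
      have := α.le_opNorm v
      rwa [Real.norm_eq_abs] at this
    have h6 := hcb v hvN
    have h7 : t * |α v| ≤ ξ v / 2 := by
      calc t * |α v| ≤ (c / (2 * (‖α‖ + 1))) * (‖α‖ * ‖v‖) := by gcongr
        _ ≤ (c / (2 * (‖α‖ + 1))) * ((‖α‖ + 1) * ‖v‖) := by gcongr; linarith
        _ = (c * ‖v‖) / 2 := by field_simp
        _ ≤ ξ v / 2 := by linarith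
    have h8 : -(t * |α v|) ≤ t * α v := by
      have := neg_abs_le (α v)
      nlinarith
    linarith

omit [IsZLattice ℝ L] in
/-- nonzero lattice vectors have norm bounded below -/
theorem exists_min_norm : ∃ m : ℝ, 0 < m ∧ ∀ v ∈ L, v ≠ 0 → m ≤ ‖v‖ := by
  have hfin := finite_of_bounded L 1
  have h1 : ({x : V | x ∈ L ∧ ‖x‖ ≤ 1} \ {0})ᶜ ∈ 𝓝 (0 : V) := by
    apply (hfin.subset sdiff_subset).isClosed.isOpen_compl.mem_nhds
    simp
  obtain ⟨r, hr, hball⟩ := Metric.mem_nhds_iff.1 h1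
  refine ⟨min r 1, by positivity, fun v hvL hv0 => ?_⟩
  by_contra hcon
  push Not at hcon
  have h2 : v ∈ Metric.ball (0 : V) r := by
    rw [Metric.mem_ball, dist_zero_right]
    exact hcon.trans_le (min_le_left _ _)
  exact hball h2 ⟨⟨hvL, (hcon.trans_le (min_le_right _ _)).le⟩, hv0⟩

omit [IsZLattice ℝ L] in
theorem exists_form {N : PointedCone ℝ V} (hN : Good N) :
    ∃ f : V →L[ℝ] ℝ, IsForm L N f ∧ IsPos N f := by
  obtain ⟨f, hf⟩ := exists_pos N (fun x hx hx' => by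
    rw [hN.closed.closure_eq] at hx hx'
    exact hN.salient x hx hx')
  have hpos : IsPos N f := fun x hx => hf x (subset_closure hx)
  obtain ⟨c, hc, hcb⟩ := lower_bound hN hpos
  obtain ⟨m, hm, hmb⟩ := exists_min_norm (L := L)
  refine ⟨(c * m)⁻¹ • f, fun v hvL hvN hv0 => ?_, fun x hx hx0 => ?_⟩
  · change 1 ≤ (c * m)⁻¹ * f v
    have h1 := hcb v hvN
    have h2 := hmb v hvL hv0
    have h3 : c * m ≤ f v := by nlinarith
    calc (1 : ℝ) = (c * m)⁻¹ * (c * m) := by field_simp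
      _ ≤ (c * m)⁻¹ * f v := by gcongr
  · change 0 < (c * m)⁻¹ * f x
    have := hpos x hx hx0
    positivity

omit [IsZLattice ℝ L] in
theorem exists_perfect [Nontrivial V] {N : PointedCone ℝ V} (hN : Good N)
    (H : ∀ ξ : V →L[ℝ] ℝ, IsForm L N ξ → IsPos N ξ) {x : V} (hx : x ∈ interior (N : Set V)) :
    ∃ ξ : V →L[ℝ] ℝ, IsForm L N ξ ∧ ∃ A : Finset V,
      (∀ a ∈ A, a ∈ L ∧ a ∈ N ∧ ξ a = 1) ∧ Submodule.span ℝ (A : Set V) = ⊤ ∧
      x ∈ PointedCone.hull ℝ (A : Set V) := by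
  obtain ⟨f₀, hf₀, hf₀pos⟩ := exists_form (L := L) hN
  have hnn : ∀ ξ : V →L[ℝ] ℝ, IsForm L N ξ → ∀ y ∈ N, 0 ≤ ξ y := by
    intro ξ hξ y hy
    by_cases hy0 : y = 0
    · rw [hy0, map_zero]
    · exact (H ξ hξ y hy hy0).le
  set K : Set (V →L[ℝ] ℝ) := {ξ | IsForm L N ξ ∧ ξ x ≤ f₀ x} with hK
  obtain ⟨r, hr, hball⟩ := Metric.nhds_basis_closedBall.mem_iff.1 (mem_interior_iff_mem_nhds.1 hx)
  have hclosed : IsClosed K := by
    have h1 : K = (⋂ v ∈ {v : V | v ∈ L ∧ v ∈ N ∧ v ≠ 0}, {ξ : V →L[ℝ] ℝ | 1 ≤ ξ v}) ∩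
        {ξ | ξ x ≤ f₀ x} := by
      ext ξ
      simp only [hK, mem_ofPred_eq, mem_inter_iff, mem_iInter]
      constructor
      · rintro ⟨h1, h2⟩
        exact ⟨fun v hv => h1 v hv.1 hv.2.1 hv.2.2, h2⟩
      · rintro ⟨h1, h2⟩
        exact ⟨fun v h3 h4 h5 => h1 v ⟨h3, h4, h5⟩, h2⟩
    rw [h1]
    refine (isClosed_biInter fun v _ => ?_).inter ?_
    · exact isClosed_le continuous_const (ContinuousLinearMap.apply ℝ ℝ v).continuous
    · exact isClosed_le (ContinuousLinearMap.apply ℝ ℝ x).continuous continuous_const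
  have hfx : 0 ≤ f₀ x := hnn f₀ hf₀ x (interior_subset hx)
  have hbdd : K ⊆ Metric.closedBall 0 (f₀ x / r) := by
    rintro ξ ⟨hξ, hξx⟩
    rw [Metric.mem_closedBall, dist_zero_right]
    refine ContinuousLinearMap.opNorm_le_bound _ (by positivity) fun y => ?_
    by_cases hy : y = 0
    · simp [hy]
    · have hyn : 0 < ‖y‖ := norm_pos_iff.2 hy
      set w : V := (r / ‖y‖) • y with hw
      have hwn : ‖w‖ ≤ r := by
        rw [hw, norm_smul, Real.norm_of_nonneg (by positivity)]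
        apply le_of_eq
        field_simp
      have h1 : x + w ∈ N := hball (by
        rw [Metric.mem_closedBall, dist_eq_norm]
        simpa using hwn)
      have h2 : x - w ∈ N := hball (by
        rw [Metric.mem_closedBall, dist_eq_norm]
        simpa using hwn)
      have h3 := hnn ξ hξ _ h1
      have h4 := hnn ξ hξ _ h2
      rw [map_add] at h3
      rw [map_sub] at h4
      have h5 : |ξ w| ≤ f₀ x := by
        rw [abs_le]
        constructor <;> linarith
      have h6 : y = (‖y‖ / r) • w := by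
        rw [hw, smul_smul]
        have : ‖y‖ / r * (r / ‖y‖) = 1 := by field_simp
        rw [this, one_smul]
      rw [Real.norm_eq_abs]
      calc |ξ y| = ‖y‖ / r * |ξ w| := by
            conv_lhs => rw [h6]
            rw [map_smul, smul_eq_mul, abs_mul, abs_of_pos (by positivity)]
        _ ≤ ‖y‖ / r * f₀ x := by gcongr
        _ = f₀ x / r * ‖y‖ := by ring
  have : ProperSpace (V →L[ℝ] ℝ) := FiniteDimensional.proper ℝ _
  have hcomp : IsCompact K :=
    Metric.isCompact_of_isClosed_isBounded hclosed (Metric.isBounded_closedBall.subset hbdd)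
  have hKne : K.Nonempty := ⟨f₀, hf₀, le_rfl⟩
  obtain ⟨ξ₁, hξ₁, hmin⟩ := hcomp.exists_isMinOn hKne
    (ContinuousLinearMap.apply ℝ ℝ x).continuous.continuousOn
  set m : ℝ := ξ₁ x with hm
  have hmin' : ∀ ξ : V →L[ℝ] ℝ, IsForm L N ξ → m ≤ ξ x := by
    intro ξ hξ
    by_cases h : ξ x ≤ f₀ x
    · exact hmin (show ξ ∈ K from ⟨hξ, h⟩)
    · push Not at h
      exact hξ₁.2.trans h.le
  set M₀ : Set (V →L[ℝ] ℝ) := K ∩ {ξ | ξ x ≤ m} with hM₀
  have hM₀comp : IsCompact M₀ :=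
    hcomp.inter_right (isClosed_le (ContinuousLinearMap.apply ℝ ℝ x).continuous continuous_const)
  obtain ⟨ξ, hξext⟩ := hM₀comp.extremePoints_nonempty ⟨ξ₁, hξ₁, by simp [hm]⟩
  rw [mem_extremePoints] at hξext
  obtain ⟨⟨hξK, hξm⟩, hext⟩ := hξext
  have hform := hξK.1
  have hpos := H ξ hform
  have hξm' : ξ x = m := le_antisymm hξm (hmin' ξ hform)
  have hmem : ∀ η : V →L[ℝ] ℝ, IsForm L N η → η x = m → η ∈ M₀ := fun η h1 h2 =>
    ⟨⟨h1, by rw [h2]; exact hξ₁.2⟩, h2.le⟩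
  have hAfin : {v : V | v ∈ L ∧ v ∈ N ∧ ξ v = 1}.Finite :=
    (finite_form_le (L := L) hN hpos 1).subset fun v hv => ⟨hv.1, hv.2.1, hv.2.2.le⟩
  refine ⟨ξ, hform, hAfin.toFinset, fun a ha => ?_, ?_, ?_⟩
  · simpa using ha
  · by_contra hspan
    obtain ⟨α, hα0, hαker⟩ := Submodule.exists_le_ker_of_lt_top _ (lt_top_iff_ne_top.2 hspan)
    set β : V →L[ℝ] ℝ := LinearMap.toContinuousLinearMap α with hβ
    have hβv : ∀ v, β v = α v := fun v => rfl
    have hzero : ∀ v ∈ L, v ∈ N → ξ v = 1 → β v = 0 := by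
      intro v h1 h2 h3
      have : v ∈ Submodule.span ℝ ((hAfin.toFinset : Set V)) :=
        Submodule.subset_span (by simp [h1, h2, h3])
      exact hαker this
    obtain ⟨t₁, ht₁, h1⟩ := perturb hN hform hpos β (fun v a b c => (hzero v a b c).ge)
    obtain ⟨t₂, ht₂, h2⟩ := perturb hN hform hpos (-β) (fun v a b c => by
      rw [ContinuousLinearMap.neg_apply, hzero v a b c, neg_zero])
    set t : ℝ := min t₁ t₂ with ht
    have htpos : 0 < t := lt_min ht₁ ht₂
    have h3 := h1 t htpos.le (min_le_left _ _)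
    have h4 := h2 t htpos.le (min_le_right _ _)
    have h5 := hmin' _ h3
    have h6 := hmin' _ h4
    have e5 : (ξ + t • β) x = m + t * β x := by
      change ξ x + t * β x = _
      rw [hξm']
    have e6 : (ξ + t • -β) x = m - t * β x := by
      change ξ x + t * (-(β x)) = _
      rw [hξm']
      ring
    rw [e5] at h5
    rw [e6] at h6
    have h7 : t * β x = 0 := by linarith
    have h8 := hext (ξ + t • β) (hmem _ h3 (by rw [e5, h7, add_zero])) (ξ + t • -β)
      (hmem _ h4 (by rw [e6, h7, sub_zero])) (by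
        refine ⟨1 / 2, 1 / 2, by norm_num, by norm_num, by norm_num, ?_⟩
        ext v
        change (1 / 2 : ℝ) * (ξ v + t * β v) + 1 / 2 * (ξ v + t * (-(β v))) = ξ v
        ring)
    have h9 : ξ + t • β = ξ := h8.1
    have h10 : t • β = 0 := by simpa using h9
    have h11 : β = 0 := (smul_eq_zero.1 h10).resolve_left htpos.ne'
    apply hα0
    ext v
    rw [← hβv, h11]
    rfl
  · by_contra hnot
    have hcl : IsClosed (PointedCone.hull ℝ ((hAfin.toFinset : Finset V) : Set V) : Set V) := by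
      refine isClosed_hull (K := N) ξ (fun y hy => hpos y (by
        rwa [hN.closed.closure_eq] at hy)) _ ?_
      intro a ha
      have : a ∈ L ∧ a ∈ N ∧ ξ a = 1 := by simpa using ha
      exact this.2.1
    let C : ProperCone ℝ V := ⟨PointedCone.hull ℝ ((hAfin.toFinset : Finset V) : Set V), hcl⟩
    have hnot' : x ∉ C := hnot
    obtain ⟨β, hβ, hβx⟩ := C.hyperplane_separation_point hnot'
    obtain ⟨t₁, ht₁, h1⟩ := perturb (L := L) hN hform hpos β (fun v a b c => hβ v (by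
      have : v ∈ PointedCone.hull ℝ ((hAfin.toFinset : Finset V) : Set V) :=
        Submodule.subset_span (by simp [a, b, c])
      exact this))
    have h2 := hmin' _ (h1 t₁ ht₁.le le_rfl)
    have e2 : (ξ + t₁ • β) x = m + t₁ * β x := by
      change ξ x + t₁ * β x = _
      rw [hξm']
    rw [e2] at h2
    nlinarith

end Pool.Agent.Lib.Pad47bbV
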