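import Pool.Agent.Lib.Pad47bbV.Transfer
import Pool.Agent.Lib.Pad47bb.RatNbhd
import Pool.Agent.Lib.Pad47bbV.Duality

/-!
When the thick points are cocompact, all forms are positive on `N` minus `0`.

Sketch. Let `ξ₀` be a form. It is `≥ 0` on `N`: on lattice points of `N` by definition, hence on
their positive rational (real) multiples, which are dense in the interior of `N`, hence on `N`, the
closure of its interior (alternatively: `exists_ratPoly_nhds` of `Pad47bb.RatNbhd` shows that every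
interior point of `N` is a nonnegative combination of lattice points that have a positive multiple
in the interior; then use `Convex.closure_interior_eq_closure_of_nonempty_interior`). Let `f` be a
positive form (`exists_form`) and `ξ_k = ξ₀ + (1 / (k + 1)) • f`, a positive form. Fix an interior
lattice point `y₀` (`exists_lattice_interior`) and `T = ξ₀ y₀ + f y₀ + 1`. Then `ξ_k y₀ ≤ T`, so by
`transfer` there are `g_k ∈ Γ` with `c ‖y‖ ≤ ξ_k (g_k y)` on `N`. Applied to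
`y = g_k⁻¹ y₀`: `c ‖g_k⁻¹ y₀‖ ≤ ξ_k y₀ ≤ T`, so the `g_k⁻¹` lie in a finite set (`finite_le` of
`Pad47bb.Basic`, with `f (g_k⁻¹ y₀) ≤ ‖f‖ T / c`). So some `g` occurs for infinitely many `k`, and in
the limit `c ‖y‖ ≤ ξ₀ (g y)` on `N`. For `x ∈ N` nonzero take `y = g⁻¹ x`.
Estimated 1.3 h.
-/

open Set Topology

namespace Pool.Agent.Lib.Pad47bbV

open Pool.Agent.Lib.Pad47bb Pool.Agent.Lib.Pad47bbQ

variable {V : Type*} [NormedAddCommGroup V] [NormedSpace ℝ V] [FiniteDimensional ℝ V]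
  {L : Submodule ℤ V} [DiscreteTopology L] [IsZLattice ℝ L]

namespace BoundaryAux

theorem nonneg_of_form [Nontrivial V] {N : PointedCone ℝ V} (hN : Good N) {ξ : V →L[ℝ] ℝ}
    (hξ : IsForm L N ξ) : ∀ x ∈ N, 0 ≤ ξ x := by
  have hint : ∀ q ∈ interior (N : Set V), 0 ≤ ξ q := by
    intro q hq
    obtain ⟨s, hs1, hs2, hs3⟩ := exists_ratPoly_nhds L isOpen_interior hq
    have hle : PointedCone.hull ℝ (s : Set V) ≤ halfSpace ξ := by
      refine Submodule.span_le.2 ?_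
      intro v hv
      obtain ⟨c, hc, hcv⟩ := hs2 v hv
      have hvN : v ∈ N := by
        have h1 := N.smul_mem (r := c⁻¹) (by positivity) (interior_subset hcv)
        rwa [smul_smul, inv_mul_cancel₀ hc.ne', one_smul] at h1
      show 0 ≤ ξ v
      by_cases hv0 : v = 0
      · simp [hv0]
      · have := hξ v (hs1 hv) hvN hv0
        linarith
    exact hle (interior_subset hs3)
  obtain ⟨y₀, hy₀⟩ := hN.interior_nonempty
  intro x hx
  by_contra hcon
  push Not at hcon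
  have hy : 0 ≤ ξ y₀ := hint y₀ hy₀
  set t : ℝ := -ξ x / (2 * (ξ y₀ + 1)) with ht
  have ht0 : 0 < t := by
    rw [ht]
    apply div_pos <;> linarith
  have h1 : x + t • y₀ ∈ interior (N : Set V) := by
    have h2 : t • y₀ ∈ interior (N : Set V) := interior_smul' hy₀ ht0
    have h3 := interior_add h2 hx
    rwa [add_comm] at h3
  have h2 := hint _ h1
  rw [map_add, map_smul, smul_eq_mul] at h2
  have h3 : t * ξ y₀ ≤ -ξ x / 2 := by
    have h4 : t * (ξ y₀ + 1) = -ξ x / 2 := by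
      rw [ht]
      have : ξ y₀ + 1 ≠ 0 := by linarith
      field_simp
    nlinarith
  linarith

end BoundaryAux

open BoundaryAux in
theorem isPos_of_isForm [Nontrivial V] {N : PointedCone ℝ V} (hN : Good N)
    {Γ : Subgroup (V ≃ₗ[ℝ] V)} (hA : Acts L N Γ) (h : ThickCocompact L N Γ) (ξ : V →L[ℝ] ℝ)
    (hξ : IsForm L N ξ) : IsPos N ξ := by
  classical
  have hξ0 := nonneg_of_form hN hξ
  obtain ⟨f, hf, hfpos⟩ := exists_form (L := L) hN
  have hf0 := nonneg_of_form hN hf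
  obtain ⟨y₀, hy₀L, hy₀0, hy₀i⟩ := exists_lattice_interior L (C := N) hN.interior_nonempty
  have hy₀N : y₀ ∈ N := interior_subset hy₀i
  set T : ℝ := ξ y₀ + f y₀ + 1 with hT
  have hT0 : 0 < T := by
    have h1 := hξ0 y₀ hy₀N
    have h2 := hf0 y₀ hy₀N
    linarith
  obtain ⟨c, hc, M, hM, htr⟩ := transfer hN hA h hT0
  -- the perturbed forms
  have key : ∀ k : ℕ, ∃ g ∈ Γ, ∀ y ∈ N, c * ‖y‖ ≤ ξ (g y) + (1 / ((k : ℝ) + 1)) * f (g y) := by
    intro k
    have hk0 : (0 : ℝ) < 1 / ((k : ℝ) + 1) := by positivity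
    have hk1 : 1 / ((k : ℝ) + 1) ≤ 1 := by
      rw [div_le_one (by positivity)]
      have : (0 : ℝ) ≤ k := Nat.cast_nonneg k
      linarith
    obtain ⟨g, hg, hlow, _⟩ := htr (ξ + (1 / ((k : ℝ) + 1)) • f) (by
        intro v hvL hvN hv0
        have h1 := hξ v hvL hvN hv0
        have h2 := mul_nonneg hk0.le (hf0 v hvN)
        simp only [add_apply, smul_apply, smul_eq_mul]
        linarith) (by
        intro x hx hx0
        have h1 := hξ0 x hx
        have h2 := mul_pos hk0 (hfpos x hx hx0)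
        simp only [add_apply, smul_apply, smul_eq_mul]
        linarith)
        ⟨y₀, hy₀L, hy₀i, by
        have h2 := mul_le_mul_of_nonneg_right hk1 (hf0 y₀ hy₀N)
        simp only [add_apply, smul_apply, smul_eq_mul]
        linarith⟩
    refine ⟨g, hg, fun y hy => ?_⟩
    have := hlow y hy
    simpa only [add_apply, smul_apply, smul_eq_mul] using this
  choose g hg hlow using key
  -- finitely many of them
  have hcl : closure (N : Set V) = (N : Set V) := hN.closed.closure_eq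
  have hfin := finite_le L N (Γ : Set (V ≃ₗ[ℝ] V)) hA.map_lattice hA.map_cone f
    (by
      intro x hx hx0
      rw [hcl] at hx
      exact hfpos x hx hx0) y₀ hy₀i (‖f‖ * (T / c))
  have hmem : ∀ k : ℕ, (g k)⁻¹ ∈ {g : V ≃ₗ[ℝ] V | g ∈ (Γ : Set (V ≃ₗ[ℝ] V)) ∧
      f (g y₀) ≤ ‖f‖ * (T / c)} := by
    intro k
    have hgi : (g k)⁻¹ ∈ Γ := Γ.inv_mem (hg k)
    refine ⟨hgi, ?_⟩
    have h1 := hlow k _ (hA.map_cone _ hgi y₀ hy₀N)
    have h2 : (g k) ((g k)⁻¹ y₀) = y₀ := (g k).apply_symm_apply y₀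
    rw [h2] at h1
    have hk1 : 1 / ((k : ℝ) + 1) ≤ 1 := by
      rw [div_le_one (by positivity)]
      have : (0 : ℝ) ≤ k := Nat.cast_nonneg k
      linarith
    have h3 := mul_le_mul_of_nonneg_right hk1 (hf0 y₀ hy₀N)
    have h4 : ‖(g k)⁻¹ y₀‖ ≤ T / c := by
      rw [le_div_iff₀ hc]
      linarith
    calc f ((g k)⁻¹ y₀) ≤ ‖f ((g k)⁻¹ y₀)‖ := le_abs_self _
      _ ≤ ‖f‖ * ‖(g k)⁻¹ y₀‖ := f.le_opNorm _
      _ ≤ ‖f‖ * (T / c) := mul_le_mul_of_nonneg_left h4 (norm_nonneg _)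
  have : Finite {g : V ≃ₗ[ℝ] V // g ∈ {g : V ≃ₗ[ℝ] V | g ∈ (Γ : Set (V ≃ₗ[ℝ] V)) ∧
      f (g y₀) ≤ ‖f‖ * (T / c)}} := hfin
  obtain ⟨⟨w, hw⟩, hinf⟩ := Finite.exists_infinite_fiber
    (fun k : ℕ => (⟨(g k)⁻¹, hmem k⟩ : {g : V ≃ₗ[ℝ] V // g ∈ {g : V ≃ₗ[ℝ] V |
      g ∈ (Γ : Set (V ≃ₗ[ℝ] V)) ∧ f (g y₀) ≤ ‖f‖ * (T / c)}}))
  have hinf' : ((fun k : ℕ => (⟨(g k)⁻¹, hmem k⟩ : {g : V ≃ₗ[ℝ] V // g ∈ {g : V ≃ₗ[ℝ] V |
      g ∈ (Γ : Set (V ≃ₗ[ℝ] V)) ∧ f (g y₀) ≤ ‖f‖ * (T / c)}})) ⁻¹' {⟨w, hw⟩}).Infinite :=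
    Set.infinite_coe_iff.1 hinf
  have hwΓ : w ∈ Γ := hw.1
  intro x hx hx0
  set y : V := w x with hy
  have hyN : y ∈ N := hA.map_cone w hwΓ x hx
  have hy0 : y ≠ 0 := by
    intro h0
    apply hx0
    have : w.symm (w x) = w.symm 0 := by rw [← hy, h0]
    simpa using this
  have hyn : 0 < ‖y‖ := norm_pos_iff.2 hy0
  have hfx := hf0 x hx
  have hlim : c * ‖y‖ ≤ ξ x := by
    by_contra hcon
    push Not at hcon
    obtain ⟨k0, hk0⟩ := exists_nat_gt (f x / (c * ‖y‖ - ξ x))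
    obtain ⟨k, hk, hkk⟩ := hinf'.exists_gt k0
    have hgk : (g k)⁻¹ = w := by
      have h1 : (⟨(g k)⁻¹, hmem k⟩ : {g : V ≃ₗ[ℝ] V // g ∈ {g : V ≃ₗ[ℝ] V |
        g ∈ (Γ : Set (V ≃ₗ[ℝ] V)) ∧ f (g y₀) ≤ ‖f‖ * (T / c)}}) = ⟨w, hw⟩ := hk
      exact congrArg Subtype.val h1
    have h2 := hlow k y hyN
    have h3 : g k y = x := by
      rw [hy, ← hgk]
      exact (g k).apply_symm_apply x
    rw [h3] at h2
    have h4 : 0 < c * ‖y‖ - ξ x := by linarith
    have h5 : f x / (c * ‖y‖ - ξ x) < (k : ℝ) + 1 := by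
      have : (k0 : ℝ) < k := by exact_mod_cast hkk
      linarith
    rw [div_lt_iff₀ h4] at h5
    have h6 : (1 / ((k : ℝ) + 1)) * f x < c * ‖y‖ - ξ x := by
      rw [one_div, inv_mul_lt_iff₀ (by positivity)]
      linarith
    linarith
  have : 0 < c * ‖y‖ := by positivity
  linarith

end Pool.Agent.Lib.Pad47bbV
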