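import Pool.Agent.Lib.Pad47bbV.Auerbach
import Pool.Agent.Lib.Pad47bbQ.Closing

/-!
Companion points of positive functionals, and uniform bounds for functionals whose companion lies in
a compact subset of the interior.

`exists_comp`: apply `exists_auerbach` to `S = {y | y ∈ N ∧ ξ y = 1}`. It is closed, and bounded
because `c * ‖y‖ ≤ ξ y` on `N` for some `c > 0` (`exists_bound` from `Pad47bb.Basic`, applied to `N`,
which is closed), hence compact (`Metric.isCompact_of_isClosed_isBounded`). It spans `V`: every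
nonzero `x ∈ N` is `ξ x • ((ξ x)⁻¹ • x)`, and `N` spans `V` because its interior is nonempty
(a submodule with nonempty interior is `⊤`: `Submodule.eq_top_of_nonempty_interior'`). Put
`x = ∑ i, b i`. Then `ξ x = n`. For `y ∈ N` with `ξ y = 1` write `y = ∑ c_i b_i`, `c_i ≤ 1`; then
`x - y = ∑ (1 - c_i) b_i ∈ N`; general `y ∈ N` by scaling (`y = 0` is trivial). `x` is interior: for
`z` interior in `N` and nonzero, `ξ z • x - z ∈ N` so `ξ z • x = z + (..)` is interior
(`interior_add_mem`), scale back (`interior_smul_mem`). (`V` is nontrivial.)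

`comp_bounds`: let `f` be positive on `N` minus `0` (`exists_pos`), `ε ‖y‖ ≤ f y` on `N`
(`exists_bound`), `f q ≤ B` on `Q` (compactness, `B > 0`). From `ξ y • q - y ∈ N` one gets
`ξ y * f q ≥ f y ≥ ε ‖y‖`; as `f q > 0` this gives `ξ y ≥ (ε / B) ‖y‖` for `y ∈ N`. Upper bound: there is
`r > 0` such that `closedBall q r ⊆ N` for all `q ∈ Q` (compactness of `Q`, `Q ⊆ interior N`; e.g.
`IsCompact.exists_cthickening_subset_open` or `IsCompact.exists_thickening_subset_open`). For `y ≠ 0`
put `w = (r / ‖y‖) • y`: `q ± w ∈ N`, so `ξ (q ± w) ≥ 0`, so `|ξ w| ≤ ξ q = n`, so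
`|ξ y| ≤ (n / r) ‖y‖`.
Estimated 1.3 h.
-/

open Set Topology

namespace Pool.Agent.Lib.Pad47bbV

open Pool.Agent.Lib.Pad47bb Pool.Agent.Lib.Pad47bbQ

variable {V : Type*} [NormedAddCommGroup V] [NormedSpace ℝ V] [FiniteDimensional ℝ V]

theorem exists_comp [Nontrivial V] {N : PointedCone ℝ V} (hN : Good N) {ξ : V →L[ℝ] ℝ}
    (hξ : IsPos N ξ) : ∃ x ∈ interior (N : Set V), Comp N ξ x := by
  classical
  have hcl : closure (N : Set V) = N := hN.closed.closure_eq
  obtain ⟨c, hc, hcb⟩ := exists_bound N ξ (by rw [hcl]; exact hξ)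
  rw [hcl] at hcb
  set S : Set V := {y | y ∈ N ∧ ξ y = 1} with hS
  have hSc : IsCompact S := by
    refine Metric.isCompact_of_isClosed_isBounded ?_ ?_
    · exact hN.closed.inter (isClosed_singleton.preimage ξ.continuous)
    · refine (Metric.isBounded_closedBall (x := (0 : V)) (r := 1 / c)).subset ?_
      rintro y ⟨hy, hy1⟩
      rw [mem_closedBall_zero_iff, le_div_iff₀ hc, mul_comm]
      exact (hcb y hy).trans hy1.le
  have hpos : ∀ y ∈ N, y ≠ 0 → (ξ y)⁻¹ • y ∈ S := by
    intro y hy hy0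
    have h1 := hξ y hy hy0
    refine ⟨PointedCone.smul_mem N (inv_nonneg.2 h1.le) hy, ?_⟩
    rw [map_smul, smul_eq_mul, inv_mul_cancel₀ h1.ne']
  have hspan : Submodule.span ℝ S = ⊤ := by
    refine Submodule.eq_top_of_nonempty_interior' _ (hN.interior_nonempty.mono ?_)
    refine interior_mono fun y hy => ?_
    rcases eq_or_ne y 0 with rfl | hy0
    · exact Submodule.zero_mem _
    · have h1 := hξ y hy hy0
      have h2 : y = ξ y • ((ξ y)⁻¹ • y) := by rw [smul_smul, mul_inv_cancel₀ h1.ne', one_smul]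
      rw [SetLike.mem_coe, h2]
      exact Submodule.smul_mem _ _ (Submodule.subset_span (hpos y hy hy0))
  obtain ⟨b, hbS, hb⟩ := exists_auerbach hSc hspan
  set x : V := ∑ i, b i with hx
  have hcomp : ∀ y ∈ N, ξ y • x - y ∈ N := by
    intro y hy
    rcases eq_or_ne y 0 with rfl | hy0
    · simp
    have h1 := hξ y hy hy0
    have h3 := hpos y hy hy0
    have h4 : x - (ξ y)⁻¹ • y ∈ N := by
      have h5 : x - (ξ y)⁻¹ • y = ∑ i, (1 - b.repr ((ξ y)⁻¹ • y) i) • b i := by
        simp only [sub_smul, one_smul, Finset.sum_sub_distrib, b.sum_repr, hx]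
      rw [h5]
      refine Submodule.sum_mem _ fun i _ => ?_
      exact PointedCone.smul_mem N (sub_nonneg.2 ((le_abs_self _).trans (hb _ h3 i))) (hbS i).1
    have h6 : ξ y • x - y = ξ y • (x - (ξ y)⁻¹ • y) := by
      rw [smul_sub, smul_smul, mul_inv_cancel₀ h1.ne', one_smul]
    rw [h6]
    exact PointedCone.smul_mem N h1.le h4
  have hn : 0 < Module.finrank ℝ V := Module.finrank_pos
  obtain ⟨z, hz⟩ := hN.interior_nonempty
  have hz' := interior_add_mem hz (hbS ⟨0, hn⟩).1
  have h0 : 0 ≤ ξ z := by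
    rcases eq_or_ne z 0 with rfl | hz0
    · simp
    · exact (hξ z (interior_subset hz) hz0).le
  have h7 : 0 < ξ (z + b ⟨0, hn⟩) := by
    rw [map_add, (hbS ⟨0, hn⟩).2]; linarith
  refine ⟨x, ?_, ?_, hcomp⟩
  · have h8 := interior_add_mem hz' (hcomp _ (interior_subset hz'))
    rw [add_sub_cancel] at h8
    have h9 := interior_smul_mem h8 (inv_pos.2 h7)
    rwa [smul_smul, inv_mul_cancel₀ h7.ne', one_smul] at h9
  · rw [hx, map_sum]
    simp [fun i => (hbS i).2]

theorem comp_bounds [Nontrivial V] {N : PointedCone ℝ V} (hN : Good N) {Q : Set V} (hQ : IsCompact Q)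
    (hQN : Q ⊆ interior (N : Set V)) :
    ∃ c : ℝ, 0 < c ∧ ∃ M : ℝ, 0 < M ∧ ∀ (ξ : V →L[ℝ] ℝ) (q : V), q ∈ Q → Comp N ξ q →
      (∀ y ∈ N, c * ‖y‖ ≤ ξ y) ∧ ∀ y, |ξ y| ≤ M * ‖y‖ := by
  have hcl : closure (N : Set V) = N := hN.closed.closure_eq
  obtain ⟨f, hf⟩ := exists_pos N (by rw [hcl]; exact hN.salient)
  obtain ⟨ε, hε, hεf⟩ := exists_bound N f hf
  rw [hcl] at hf hεf
  obtain ⟨C, hC⟩ := hQ.exists_bound_of_continuousOn f.continuous.continuousOn
  obtain ⟨r, hr, hrQ⟩ := hQ.exists_cthickening_subset_open isOpen_interior hQN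
  have hn : (0 : ℝ) < Module.finrank ℝ V := by exact_mod_cast Module.finrank_pos (R := ℝ) (M := V)
  set B : ℝ := |C| + 1 with hB
  have hB0 : 0 < B := by positivity
  refine ⟨ε / B, by positivity, Module.finrank ℝ V / r, by positivity, fun ξ q hq hcomp => ?_⟩
  obtain ⟨h1, h2⟩ := hcomp
  have hq0 : q ≠ 0 := by
    rintro rfl
    rw [map_zero] at h1
    exact hn.ne h1
  have hfq : 0 < f q := hf q (interior_subset (hQN hq)) hq0
  have hfB : f q ≤ B := by
    have := hC q hq
    have h3 : f q ≤ ‖f q‖ := Real.le_norm_self _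
    have h4 := le_abs_self C
    linarith
  have hlow : ∀ y ∈ N, ε / B * ‖y‖ ≤ ξ y := by
    intro y hy
    have h3 := h2 y hy
    have h4 : 0 ≤ f (ξ y • q - y) := le_trans (by positivity) (hεf _ h3)
    rw [map_sub, map_smul, smul_eq_mul] at h4
    have h5 := hεf y hy
    have h6 : 0 ≤ ε * ‖y‖ := by positivity
    have h7 : 0 ≤ ξ y := by
      by_contra hneg
      push Not at hneg
      have := mul_neg_of_neg_of_pos hneg hfq
      linarith
    rw [div_mul_eq_mul_div, div_le_iff₀ hB0]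
    have h8 := mul_le_mul_of_nonneg_left hfB h7
    linarith
  refine ⟨hlow, fun y => ?_⟩
  have hup : ∀ w : V, ‖w‖ ≤ r → |ξ w| ≤ Module.finrank ℝ V := by
    intro w hw
    have key : ∀ w : V, ‖w‖ ≤ r → 0 ≤ ξ (q + w) := by
      intro w hw
      have h3 : q + w ∈ Metric.closedBall q r := by
        rw [Metric.mem_closedBall, dist_eq_norm, add_sub_cancel_left]
        exact hw
      have h4 := interior_subset (hrQ (Metric.closedBall_subset_cthickening hq r h3))
      exact le_trans (by positivity) (hlow _ h4)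
    have h3 := key w hw
    have h4 := key (-w) (by rwa [norm_neg])
    rw [map_add, h1] at h3
    rw [map_add, map_neg, h1] at h4
    rw [abs_le]
    constructor <;> linarith
  rcases eq_or_ne y 0 with rfl | hy0
  · simp
  have hny : 0 < ‖y‖ := norm_pos_iff.2 hy0
  have h3 := hup ((r / ‖y‖) • y) (by
    rw [norm_smul, Real.norm_of_nonneg (by positivity), div_mul_cancel₀ _ hny.ne'])
  rw [map_smul, smul_eq_mul, abs_mul, abs_of_nonneg (by positivity : 0 ≤ r / ‖y‖)] at h3
  rw [div_mul_eq_mul_div, le_div_iff₀ hr]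
  rw [div_mul_eq_mul_div, div_le_iff₀ hny] at h3
  linarith

end Pool.Agent.Lib.Pad47bbV
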