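import Pool.Agent.Lib.Pad47bbV.Defs
import Pool.Agent.Lib.Pad47bbQ.Closing

/-!
Volumes of order intervals.

Sketches. `isCompact_interval`: closed (as `N` is), bounded: with `f` positive on `N` minus `0`
(`exists_pos`), `ε' ‖y‖ ≤ f y` on `N` (`exists_bound`): `ε' ‖z‖ ≤ f z ≤ f x`.
`orderVol_lt_top`: compact sets have finite measure. `orderVol_pos`: for `x` interior the interval
contains a neighbourhood of `(1/2) • x`. `orderVol_smul`: `[0, t x] = t • [0, x]`,
`Measure.addHaar_smul`. `orderVol_mono`: inclusion.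
`measure_box`: the set is `(2/3) • (x + [0, x])`: `z = (2/3) • (x + u)`, `u = (3/2) z - x`; use
`Measure.addHaar_smul` and translation invariance (`measure_preimage_add`, or `measure_vadd`).
`measure_image_eq`: `g` and `g⁻¹` preserve `L`, so in a `ℤ`-basis of `L` (which is an `ℝ`-basis of `V`:
`Module.Basis.ofZLatticeBasis`, `IsZLattice`, `ZLattice.module_free`, `ZLattice.module_finite`) the
determinants of `g` and `g⁻¹` are integers with product `1`, so `|det g| = 1`;
`Measure.addHaar_image_linearMap` (or `addHaar_preimage_linearEquiv`).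
Estimated 1.5 h.
-/

open Set Topology MeasureTheory
open scoped ENNReal Pointwise

namespace Pool.Agent.Lib.Pad47bbV

open Pool.Agent.Lib.Pad47bb Pool.Agent.Lib.Pad47bbQ

variable {V : Type*} [NormedAddCommGroup V] [NormedSpace ℝ V] [FiniteDimensional ℝ V]

theorem isCompact_interval {N : PointedCone ℝ V} (hN : Good N) (x : V) :
    IsCompact {y : V | y ∈ N ∧ x - y ∈ N} := by
  have hcl : closure (N : Set V) = N := hN.closed.closure_eq
  obtain ⟨f, hf⟩ := exists_pos N (by rw [hcl]; exact hN.salient)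
  obtain ⟨ε, hε, hb⟩ := exists_bound N f hf
  rw [hcl] at hb
  refine Metric.isCompact_of_isClosed_isBounded ?_ ?_
  · exact (hN.closed.preimage continuous_id).inter
      (hN.closed.preimage (continuous_const.sub continuous_id))
  · rw [Metric.isBounded_iff_subset_closedBall 0]
    refine ⟨f x / ε, ?_⟩
    rintro y ⟨hy1, hy2⟩
    rw [mem_closedBall_zero_iff, le_div_iff₀ hε, mul_comm]
    have h1 := hb y hy1
    have h2 := hb (x - y) hy2
    have h3 : 0 ≤ ε * ‖x - y‖ := by positivity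
    rw [map_sub] at h2
    linarith

variable [MeasurableSpace V] [BorelSpace V] (μ : Measure V) [μ.IsAddHaarMeasure]

theorem orderVol_lt_top {N : PointedCone ℝ V} (hN : Good N) (x : V) : orderVol μ N x < ∞ :=
  (isCompact_interval hN x).measure_lt_top

theorem orderVol_pos {N : PointedCone ℝ V} (hN : Good N) {x : V}
    (hx : x ∈ interior (N : Set V)) : 0 < orderVol μ N x := by
  have _ := hN
  have h1 : ((1 / 2 : ℝ) • x) ∈ interior (N : Set V) := interior_smul_mem hx (by norm_num)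
  have hopen : IsOpen {y : V | y ∈ interior (N : Set V) ∧ x - y ∈ interior (N : Set V)} :=
    isOpen_interior.inter (isOpen_interior.preimage (continuous_const.sub continuous_id))
  have hne : {y : V | y ∈ interior (N : Set V) ∧ x - y ∈ interior (N : Set V)}.Nonempty := by
    refine ⟨(1 / 2 : ℝ) • x, h1, ?_⟩
    have : x - (1 / 2 : ℝ) • x = (1 / 2 : ℝ) • x := by
      nth_rewrite 1 [← one_smul ℝ x]
      rw [← sub_smul]
      norm_num
    rw [this]
    exact h1
  refine (hopen.measure_pos μ hne).trans_le (measure_mono ?_)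
  rintro y ⟨hy1, hy2⟩
  exact ⟨interior_subset hy1, interior_subset hy2⟩

theorem orderVol_smul (N : PointedCone ℝ V) {t : ℝ} (ht : 0 < t) (x : V) :
    orderVol μ N (t • x) = ENNReal.ofReal (t ^ Module.finrank ℝ V) * orderVol μ N x := by
  have h : {y : V | y ∈ N ∧ t • x - y ∈ N} = t • {y : V | y ∈ N ∧ x - y ∈ N} := by
    ext y
    rw [Set.mem_smul_set]
    constructor
    · rintro ⟨h1, h2⟩
      refine ⟨t⁻¹ • y, ⟨PointedCone.smul_mem N (inv_nonneg.mpr ht.le) h1, ?_⟩, ?_⟩
      · have h3 := PointedCone.smul_mem N (inv_nonneg.mpr ht.le) h2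
        rwa [smul_sub, smul_smul, inv_mul_cancel₀ ht.ne', one_smul] at h3
      · rw [smul_smul, mul_inv_cancel₀ ht.ne', one_smul]
    · rintro ⟨z, ⟨h1, h2⟩, rfl⟩
      refine ⟨PointedCone.smul_mem N ht.le h1, ?_⟩
      rw [← smul_sub]
      exact PointedCone.smul_mem N ht.le h2
  unfold orderVol
  rw [h, Measure.addHaar_smul, abs_of_pos (by positivity)]

theorem orderVol_mono {N : PointedCone ℝ V} {x y : V} (h : y - x ∈ N) :
    orderVol μ N x ≤ orderVol μ N y := by
  refine measure_mono ?_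
  rintro z ⟨h1, h2⟩
  refine ⟨h1, ?_⟩
  have := N.add_mem h h2
  simpa using this

theorem measure_box {N : PointedCone ℝ V} (x : V) :
    μ {z : V | z - (2 / 3 : ℝ) • x ∈ N ∧ (4 / 3 : ℝ) • x - z ∈ N} =
      ENNReal.ofReal ((2 / 3) ^ Module.finrank ℝ V) * orderVol μ N x := by
  have h : {z : V | z - (2 / 3 : ℝ) • x ∈ N ∧ (4 / 3 : ℝ) • x - z ∈ N} =
      (fun z => -((2 / 3 : ℝ) • x) + z) ⁻¹' {y : V | y ∈ N ∧ (2 / 3 : ℝ) • x - y ∈ N} := by
    ext z
    simp only [mem_ofPred_eq, mem_preimage]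
    have e1 : -((2 / 3 : ℝ) • x) + z = z - (2 / 3 : ℝ) • x := by abel
    have e2 : (2 / 3 : ℝ) • x - (z - (2 / 3 : ℝ) • x) = (4 / 3 : ℝ) • x - z := by
      have : (4 / 3 : ℝ) • x = (2 / 3 : ℝ) • x + (2 / 3 : ℝ) • x := by
        rw [← add_smul]; norm_num
      rw [this]; abel
    rw [e1, e2]
  rw [h, measure_preimage_add]
  exact orderVol_smul μ N (by norm_num : (0 : ℝ) < 2 / 3) x

theorem measure_image_eq {L : Submodule ℤ V} [DiscreteTopology L] [IsZLattice ℝ L]
    {g : V ≃ₗ[ℝ] V} (hg : ∀ x ∈ L, g x ∈ L) (hg' : ∀ x ∈ L, g⁻¹ x ∈ L) (S : Set V) :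
    μ ((g : V → V) '' S) = μ S := by
  classical
  have hfree : Module.Free ℤ L := ZLattice.module_free ℝ L
  have hfin : Module.Finite ℤ L := ZLattice.module_finite ℝ L
  let b := Module.Free.chooseBasis ℤ L
  let B : Module.Basis _ ℝ V := b.ofZLatticeBasis ℝ L
  -- determinants of lattice preserving maps are integers
  have hint : ∀ h : V ≃ₗ[ℝ] V, (∀ x ∈ L, h x ∈ L) →
      ∃ n : ℤ, LinearMap.det (h : V →ₗ[ℝ] V) = n := by
    intro h hh
    let h' : L →ₗ[ℤ] L := ((h : V →ₗ[ℝ] V).restrictScalars ℤ).restrict hh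
    refine ⟨(LinearMap.toMatrix b b h').det, ?_⟩
    rw [← LinearMap.det_toMatrix B]
    have e : LinearMap.toMatrix B B (h : V →ₗ[ℝ] V) =
        (LinearMap.toMatrix b b h').map (Int.castRingHom ℝ) := by
      ext i j
      rw [LinearMap.toMatrix_apply, Matrix.map_apply, LinearMap.toMatrix_apply]
      have e1 : B j = (b j : V) := b.ofZLatticeBasis_apply ℝ L j
      rw [e1]
      have e2 : (h : V →ₗ[ℝ] V) (b j : V) = ((h' (b j) : L) : V) := rfl
      rw [e2]
      exact b.ofZLatticeBasis_repr_apply ℝ L _ _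
    rw [e]
    exact ((Int.castRingHom ℝ).map_det _).symm
  obtain ⟨n, hn⟩ := hint g hg
  obtain ⟨n', hn'⟩ := hint g⁻¹ hg'
  have hprod : LinearMap.det (g : V →ₗ[ℝ] V) * LinearMap.det ((g⁻¹ : V ≃ₗ[ℝ] V) : V →ₗ[ℝ] V) =
      1 := by
    rw [← LinearMap.det_comp]
    have : (g : V →ₗ[ℝ] V) ∘ₗ ((g⁻¹ : V ≃ₗ[ℝ] V) : V →ₗ[ℝ] V) = LinearMap.id := by
      ext x
      exact LinearEquiv.apply_symm_apply g x
    rw [this, LinearMap.det_id]
  rw [hn, hn'] at hprod
  have hnn : n * n' = 1 := by exact_mod_cast hprod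
  have habs : |LinearMap.det (g : V →ₗ[ℝ] V)| = 1 := by
    rw [hn]
    have : n = 1 ∨ n = -1 := Int.eq_one_or_neg_one_of_mul_eq_one hnn
    rcases this with h | h <;> simp [h]
  have h2 := Measure.addHaar_image_linearMap μ (g : V →ₗ[ℝ] V) S
  rw [habs, ENNReal.ofReal_one, one_mul] at h2
  exact h2

end Pool.Agent.Lib.Pad47bbV
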