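import Pool.Agent.Lib.Pad47bbV.Defs

/-!
A packing inequality for a countable group of measure preserving maps.

Sketch. `V` is any measure space, `Γ` a countable group of bijections (here linear automorphisms)
with `μ (g '' S) = μ S`. Let `D` be measurable and `F` a finite set of points with measurable sets
`B x`. Let `φ z = ∑_{x ∈ F} ∑_{g ∈ Γ} 1_{g '' B x}(z)`. Then `φ z ≤ K` for every `z`: by `hdisj` all
pairs `(x, g)` with `z ∈ g '' B x` have the same `x` (if `g b = g' b'` then `g'⁻¹ g b = b'`), and if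
`g₀` is one of the group elements then `g ↦ g⁻¹ * g₀` is injective with values in
`{u ∈ Γ | (u '' B x ∩ B x).Nonempty}`, which has at most `K` elements. So
`∑_x ∑_g μ (g '' B x ∩ D) = ∫_D φ ≤ K μ D`. On the other hand
`∑_g μ (g '' B x ∩ D) = ∑_g μ (B x ∩ g⁻¹ '' D) ≥ μ (B x) ≥ c` as `B x` is covered by the sets
`g⁻¹ '' D = {z | g z ∈ D}` (`measure_iUnion_le`). Measurability: `g '' S` is measurable for `S`
measurable since `g` is a homeomorphism (`LinearEquiv.toContinuousLinearEquiv`).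
Estimated 1.5 h.
-/

open Set Topology MeasureTheory
open scoped ENNReal

namespace Pool.Agent.Lib.Pad47bbV

variable {V : Type*} [NormedAddCommGroup V] [NormedSpace ℝ V] [FiniteDimensional ℝ V]
  [MeasurableSpace V] [BorelSpace V]

private theorem measurableSet_image_equiv (g : V ≃ₗ[ℝ] V) {S : Set V} (hS : MeasurableSet S) :
    MeasurableSet ((g : V → V) '' S) :=
  g.toContinuousLinearEquiv.toHomeomorph.measurableEmbedding.measurableSet_image.mpr hS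

private theorem multiplicity (Γ : Subgroup (V ≃ₗ[ℝ] V)) (F : Finset V) (B : V → Set V) {K : ℕ}
    (hK : ∀ x ∈ F, ∀ G : Finset (V ≃ₗ[ℝ] V), (∀ g ∈ G, g ∈ Γ ∧
      (((g : V → V) '' B x) ∩ B x).Nonempty) → G.card ≤ K)
    (hdisj : ∀ x ∈ F, ∀ y ∈ F, x ≠ y → ∀ g ∈ Γ, Disjoint ((g : V → V) '' B x) (B y)) (z : V) :
    ∑ x ∈ F, ∑' g : Γ, indicator (((g : V ≃ₗ[ℝ] V) : V → V) '' B x) (fun _ => (1 : ℝ≥0∞)) z ≤
      K := by
  classical
  by_cases h : ∃ x₀ ∈ F, ∃ g₀ : Γ, z ∈ ((g₀ : V ≃ₗ[ℝ] V) : V → V) '' B x₀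
  · obtain ⟨x₀, hx₀, g₀, b₀, hb₀, hz₀⟩ := h
    have hmove : ∀ (g : Γ) (b : V), (g : V ≃ₗ[ℝ] V) b = z →
        ((g₀⁻¹ * g : Γ) : V ≃ₗ[ℝ] V) b = b₀ := by
      intro g b hb
      have h1 : ((g₀⁻¹ * g : Γ) : V ≃ₗ[ℝ] V) b = (g₀ : V ≃ₗ[ℝ] V)⁻¹ ((g : V ≃ₗ[ℝ] V) b) := rfl
      rw [h1, hb, ← hz₀]
      exact LinearEquiv.symm_apply_apply _ _
    rw [Finset.sum_eq_single x₀]
    · rw [ENNReal.tsum_eq_iSup_sum]
      refine iSup_le fun s => ?_
      have h1 : ∑ g ∈ s, indicator (((g : V ≃ₗ[ℝ] V) : V → V) '' B x₀)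
          (fun _ => (1 : ℝ≥0∞)) z =
          ((s.filter fun g : Γ => z ∈ ((g : V ≃ₗ[ℝ] V) : V → V) '' B x₀).card : ℝ≥0∞) := by
        rw [Finset.card_filter]
        push_cast
        refine Finset.sum_congr rfl fun g _ => ?_
        rw [indicator_apply]
      rw [h1]
      set T := s.filter fun g : Γ => z ∈ ((g : V ≃ₗ[ℝ] V) : V → V) '' B x₀ with hT
      have hinj : Function.Injective fun g : Γ => ((g₀⁻¹ * g : Γ) : V ≃ₗ[ℝ] V) := by
        intro g g' hgg'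
        exact mul_left_cancel (Subtype.ext hgg')
      have h2 := hK x₀ hx₀ (T.image fun g : Γ => ((g₀⁻¹ * g : Γ) : V ≃ₗ[ℝ] V)) ?_
      · rw [Finset.card_image_of_injective _ hinj] at h2
        exact_mod_cast h2
      · intro u hu
        rw [Finset.mem_image] at hu
        obtain ⟨g, hg, rfl⟩ := hu
        rw [hT, Finset.mem_filter] at hg
        obtain ⟨-, b, hb, hgb⟩ := hg
        refine ⟨(g₀⁻¹ * g).2, b₀, ⟨b, hb, hmove g b hgb⟩, hb₀⟩
    · intro x hx hne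
      rw [ENNReal.tsum_eq_zero]
      intro g
      rw [indicator_of_notMem]
      rintro ⟨b, hb, hgb⟩
      have h3 := hdisj x hx x₀ hx₀ hne _ (g₀⁻¹ * g).2
      exact Set.disjoint_left.mp h3 ⟨b, hb, hmove g b hgb⟩ hb₀
    · intro h
      exact absurd hx₀ h
  · push Not at h
    have h0 : ∑ x ∈ F, ∑' g : Γ, indicator (((g : V ≃ₗ[ℝ] V) : V → V) '' B x)
        (fun _ => (1 : ℝ≥0∞)) z = 0 := by
      refine Finset.sum_eq_zero fun x hx => ?_
      rw [ENNReal.tsum_eq_zero]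
      intro g
      exact indicator_of_notMem (h x hx g) _
    rw [h0]
    simp

theorem packing (μ : Measure V) (Γ : Subgroup (V ≃ₗ[ℝ] V)) (hcount : (Γ : Set (V ≃ₗ[ℝ] V)).Countable)
    (hμ : ∀ g ∈ Γ, ∀ S : Set V, μ ((g : V → V) '' S) = μ S) {D : Set V} (hD : MeasurableSet D)
    (F : Finset V) (B : V → Set V) (hB : ∀ x ∈ F, MeasurableSet (B x))
    (hcov : ∀ x ∈ F, ∀ z ∈ B x, ∃ g ∈ Γ, g z ∈ D) {c : ℝ≥0∞} (hc : ∀ x ∈ F, c ≤ μ (B x)) {K : ℕ}
    (hK : ∀ x ∈ F, ∀ G : Finset (V ≃ₗ[ℝ] V), (∀ g ∈ G, g ∈ Γ ∧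
      (((g : V → V) '' B x) ∩ B x).Nonempty) → G.card ≤ K)
    (hdisj : ∀ x ∈ F, ∀ y ∈ F, x ≠ y → ∀ g ∈ Γ, Disjoint ((g : V → V) '' B x) (B y)) :
    (F.card : ℝ≥0∞) * c ≤ K * μ D := by
  classical
  have hΓ : Countable Γ := hcount.to_subtype
  have hmeas : ∀ x ∈ F, ∀ g : Γ, MeasurableSet (((g : V ≃ₗ[ℝ] V) : V → V) '' B x) :=
    fun x hx g => measurableSet_image_equiv _ (hB x hx)
  -- the integral
  have hint : ∑ x ∈ F, ∑' g : Γ, μ (((g : V ≃ₗ[ℝ] V) : V → V) '' B x ∩ D) ≤ K * μ D := by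
    calc ∑ x ∈ F, ∑' g : Γ, μ (((g : V ≃ₗ[ℝ] V) : V → V) '' B x ∩ D)
        = ∑ x ∈ F, ∑' g : Γ, ∫⁻ z in D, indicator (((g : V ≃ₗ[ℝ] V) : V → V) '' B x)
            (fun _ => (1 : ℝ≥0∞)) z ∂μ := by
          refine Finset.sum_congr rfl fun x hx => tsum_congr fun g => ?_
          rw [lintegral_indicator (hmeas x hx g), lintegral_one, Measure.restrict_restrict
            (hmeas x hx g), Measure.restrict_apply_univ]
      _ = ∫⁻ z in D, ∑ x ∈ F, ∑' g : Γ, indicator (((g : V ≃ₗ[ℝ] V) : V → V) '' B x)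
            (fun _ => (1 : ℝ≥0∞)) z ∂μ := by
          rw [lintegral_finsetSum']
          · refine Finset.sum_congr rfl fun x hx => ?_
            rw [lintegral_tsum]
            intro g
            exact (measurable_const.indicator (hmeas x hx g)).aemeasurable
          · intro x hx
            exact (Measurable.tsum fun g =>
              measurable_const.indicator (hmeas x hx g)).aemeasurable
      _ ≤ ∫⁻ _ in D, (K : ℝ≥0∞) ∂μ := lintegral_mono fun z => multiplicity Γ F B hK hdisj z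
      _ = K * μ D := by rw [setLIntegral_const]
  -- the lower bound
  have hlow : ∀ x ∈ F, c ≤ ∑' g : Γ, μ (((g : V ≃ₗ[ℝ] V) : V → V) '' B x ∩ D) := by
    intro x hx
    have h1 : B x ⊆ ⋃ g : Γ, B x ∩ {z | (g : V ≃ₗ[ℝ] V) z ∈ D} := by
      intro z hz
      obtain ⟨g, hg, hgz⟩ := hcov x hx z hz
      exact mem_iUnion.mpr ⟨⟨g, hg⟩, hz, hgz⟩
    calc c ≤ μ (B x) := hc x hx
      _ ≤ μ (⋃ g : Γ, B x ∩ {z | (g : V ≃ₗ[ℝ] V) z ∈ D}) := measure_mono h1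
      _ ≤ ∑' g : Γ, μ (B x ∩ {z | (g : V ≃ₗ[ℝ] V) z ∈ D}) := measure_iUnion_le _
      _ = ∑' g : Γ, μ (((g : V ≃ₗ[ℝ] V) : V → V) '' B x ∩ D) := by
          refine tsum_congr fun g => ?_
          rw [← hμ g g.2 (B x ∩ {z | (g : V ≃ₗ[ℝ] V) z ∈ D})]
          congr 1
          ext w
          constructor
          · rintro ⟨z, ⟨hz1, hz2⟩, rfl⟩
            exact ⟨⟨z, hz1, rfl⟩, hz2⟩
          · rintro ⟨⟨z, hz1, rfl⟩, hz2⟩
            exact ⟨z, ⟨hz1, hz2⟩, rfl⟩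
  calc (F.card : ℝ≥0∞) * c = ∑ _x ∈ F, c := by rw [Finset.sum_const, nsmul_eq_mul]
    _ ≤ ∑ x ∈ F, ∑' g : Γ, μ (((g : V ≃ₗ[ℝ] V) : V → V) '' B x ∩ D) :=
        Finset.sum_le_sum hlow
    _ ≤ K * μ D := hint

end Pool.Agent.Lib.Pad47bbV
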