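import Pool.Agent.Lib.Pad47bbV.Auerbach

/-!
Pigeonhole: among many linear automorphisms that are bounded with respect to the order interval
`[-x, x]`, two are close to each other, uniformly in the cone and in `x`.
-/

open Set Topology

namespace Pool.Agent.Lib.Pad47bbV

open Pool.Agent.Lib.Pad47bb

section

variable {V : Type*} [NormedAddCommGroup V] [NormedSpace ℝ V] [FiniteDimensional ℝ V]

theorem isCompact_sball {N : PointedCone ℝ V} (hN : Good N) (x : V) : IsCompact (sball N x) := by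
  have hcl : closure (N : Set V) = N := hN.closed.closure_eq
  obtain ⟨f, hf⟩ := exists_pos N (by rw [hcl]; exact hN.salient)
  obtain ⟨ε, hε, hb⟩ := exists_bound N f hf
  rw [hcl] at hb hf
  have : ProperSpace V := FiniteDimensional.proper ℝ V
  apply Metric.isCompact_of_isClosed_isBounded
  · have e1 : sball N x = (fun z => x - z) ⁻¹' (N : Set V) ∩ (fun z => x + z) ⁻¹' (N : Set V) := rfl
    rw [e1]
    exact (hN.closed.preimage (by fun_prop)).inter (hN.closed.preimage (by fun_prop))
  · apply (Metric.isBounded_closedBall (x := x) (r := 2 * f x / ε)).subset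
    rintro z ⟨h1, h2⟩
    rw [Metric.mem_closedBall, dist_eq_norm, norm_sub_rev, le_div_iff₀ hε, mul_comm]
    have h3 := hb _ h1
    have h4 : 0 ≤ f (x + z) := by
      have := hb _ h2
      have h5 : 0 ≤ ε * ‖x + z‖ := by positivity
      linarith
    rw [map_sub] at h3
    rw [map_add] at h4
    linarith

theorem sball_mem_nhds {N : PointedCone ℝ V} {x : V} (hx : x ∈ interior (N : Set V)) :
    sball N x ∈ 𝓝 (0 : V) := by
  have hN : (N : Set V) ∈ 𝓝 x := mem_interior_iff_mem_nhds.mp hx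
  have h1 : Filter.Tendsto (fun z : V => x - z) (𝓝 0) (𝓝 x) := by
    have h : Continuous (fun z : V => x - z) := by fun_prop
    have := h.tendsto 0
    simpa using this
  have h2 : Filter.Tendsto (fun z : V => x + z) (𝓝 0) (𝓝 x) := by
    have h : Continuous (fun z : V => x + z) := by fun_prop
    have := h.tendsto 0
    simpa using this
  filter_upwards [h1 hN, h2 hN] with z h3 h4
  exact ⟨h3, h4⟩

theorem span_sball {N : PointedCone ℝ V} {x : V} (hx : x ∈ interior (N : Set V)) :
    Submodule.span ℝ (sball N x) = ⊤ := by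
  apply Submodule.eq_top_of_nonempty_interior'
  refine ⟨0, ?_⟩
  rw [mem_interior_iff_mem_nhds]
  exact Filter.mem_of_superset (sball_mem_nhds hx) Submodule.subset_span

omit [FiniteDimensional ℝ V] in
theorem smul_bound {N : PointedCone ℝ V} {x y : V} (hx : x ∈ N) (hy : y ∈ sball N x) {r t : ℝ}
    (ht : |t| ≤ r) : r • x - t • y ∈ N ∧ r • x + t • y ∈ N := by
  have h0 : 0 ≤ r - |t| := by linarith
  have h1 : (r - |t|) • x ∈ N := N.smul_mem h0 hx
  have h2 : |t| • (x - y) ∈ N := N.smul_mem (abs_nonneg t) hy.1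
  have h3 : |t| • (x + y) ∈ N := N.smul_mem (abs_nonneg t) hy.2
  rcases abs_cases t with ⟨h, -⟩ | ⟨h, -⟩
  · rw [h] at h1 h2 h3
    constructor
    · have := N.add_mem h1 h2
      convert this using 1
      module
    · have := N.add_mem h1 h3
      convert this using 1
      module
  · rw [h] at h1 h2 h3
    constructor
    · have := N.add_mem h1 h3
      convert this using 1
      module
    · have := N.add_mem h1 h2
      convert this using 1
      module

end

theorem exists_small_quotient (V : Type*) [NormedAddCommGroup V] [NormedSpace ℝ V]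
    [FiniteDimensional ℝ V] {δ : ℝ} (hδ : 0 < δ) :
    ∃ K : ℕ, ∀ N : PointedCone ℝ V, Good N → ∀ x ∈ interior (N : Set V),
      ∀ G : Finset (V ≃ₗ[ℝ] V),
      (∀ g ∈ G, ∀ z ∈ sball N x, ((2 : ℝ) • x - g z ∈ N ∧ (2 : ℝ) • x + g z ∈ N) ∧
        (2 : ℝ) • x - g⁻¹ z ∈ N ∧ (2 : ℝ) • x + g⁻¹ z ∈ N) →
      K < G.card → ∃ g₁ ∈ G, ∃ g₂ ∈ G, g₁ ≠ g₂ ∧ Small N δ x (g₁⁻¹ * g₂) := by
  classical
  set n : ℕ := Module.finrank ℝ V with hn
  set η : ℝ := δ / (2 * (n : ℝ) ^ 2 + 2) with hη
  have hη0 : 0 < η := by positivity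
  set tgt : Finset (Fin n → Fin n → ℤ) := Fintype.piFinset (fun _ => Fintype.piFinset
    (fun _ => Finset.Icc ⌊-2 / η⌋ ⌊2 / η⌋)) with htgt
  refine ⟨tgt.card, fun N hN x hx G hG hcard => ?_⟩
  have hxN : x ∈ N := interior_subset hx
  obtain ⟨b, hbS, hb⟩ := exists_auerbach (isCompact_sball hN x) (span_sball hx)
  have hentry : ∀ g ∈ G, ∀ i j, |b.repr (g (b j)) i| ≤ 2 := by
    intro g hg i j
    obtain ⟨⟨h1, h2⟩, -⟩ := hG g hg (b j) (hbS j)
    have h3 : (1 / 2 : ℝ) • g (b j) ∈ sball N x := by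
      constructor
      · have := N.smul_mem (r := (1 / 2 : ℝ)) (by norm_num) h1
        convert this using 1
        change x - (1 / 2 : ℝ) • g (b j) = (1 / 2 : ℝ) • ((2 : ℝ) • x - g (b j))
        module
      · have := N.smul_mem (r := (1 / 2 : ℝ)) (by norm_num) h2
        convert this using 1
        change x + (1 / 2 : ℝ) • g (b j) = (1 / 2 : ℝ) • ((2 : ℝ) • x + g (b j))
        module
    have h4 := hb _ h3 i
    rw [map_smul, Finsupp.smul_apply, smul_eq_mul, abs_mul, abs_of_pos (by norm_num : (0:ℝ) < 1 / 2)]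
      at h4
    linarith
  let φ : (V ≃ₗ[ℝ] V) → (Fin n → Fin n → ℤ) := fun g i j => ⌊b.repr (g (b j)) i / η⌋
  have hmaps : ∀ g ∈ G, φ g ∈ tgt := by
    intro g hg
    rw [htgt, Fintype.mem_piFinset]
    intro i
    rw [Fintype.mem_piFinset]
    intro j
    rw [Finset.mem_Icc]
    have h1 := abs_le.mp (hentry g hg i j)
    exact ⟨Int.floor_le_floor (by rw [div_le_div_iff_of_pos_right hη0]; exact h1.1),
      Int.floor_le_floor (by rw [div_le_div_iff_of_pos_right hη0]; exact h1.2)⟩
  obtain ⟨g₁, hg₁, g₂, hg₂, hne, heq⟩ := Finset.exists_ne_map_eq_of_card_lt_of_maps_to hcard hmaps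
  refine ⟨g₁, hg₁, g₂, hg₂, hne, fun z hz => ?_⟩
  have hclose : ∀ i j, |b.repr (g₂ (b j)) i - b.repr (g₁ (b j)) i| ≤ η := by
    intro i j
    have h1 : ⌊b.repr (g₂ (b j)) i / η⌋ = ⌊b.repr (g₁ (b j)) i / η⌋ :=
      (congrFun (congrFun heq i) j).symm
    have h2 := Int.abs_sub_lt_one_of_floor_eq_floor h1
    rw [← sub_div, abs_div, abs_of_pos hη0, div_lt_one hη0] at h2
    exact h2.le
  set w : V := g₂ z - g₁ z with hw
  have hwrepr : ∀ i, |b.repr w i| ≤ n * η := by
    intro i
    have h1 : b.repr w i = ∑ j, b.repr z j * (b.repr (g₂ (b j)) i - b.repr (g₁ (b j)) i) := by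
      have h2 : w = ∑ j, b.repr z j • (g₂ (b j) - g₁ (b j)) := by
        rw [hw]
        conv_lhs => rw [← b.sum_repr z]
        rw [map_sum, map_sum, ← Finset.sum_sub_distrib]
        refine Finset.sum_congr rfl (fun j _ => ?_)
        rw [map_smul, map_smul, smul_sub]
      rw [h2, map_sum, Finsupp.finsetSum_apply]
      refine Finset.sum_congr rfl (fun j _ => ?_)
      rw [map_smul, Finsupp.smul_apply, smul_eq_mul, map_sub, Finsupp.sub_apply]
    rw [h1]
    refine le_trans (Finset.abs_sum_le_sum_abs _ _) ?_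
    have h3 : ∀ j ∈ (Finset.univ : Finset (Fin n)),
        |b.repr z j * (b.repr (g₂ (b j)) i - b.repr (g₁ (b j)) i)| ≤ η := by
      intro j _
      rw [abs_mul]
      calc |b.repr z j| * |b.repr (g₂ (b j)) i - b.repr (g₁ (b j)) i| ≤ 1 * η :=
            mul_le_mul (hb z hz j) (hclose i j) (abs_nonneg _) (by norm_num)
        _ = η := one_mul _
    refine le_trans (Finset.sum_le_sum h3) ?_
    rw [Finset.sum_const, Finset.card_univ, Fintype.card_fin, nsmul_eq_mul]
  have hwN : (δ / 2) • x - w ∈ N ∧ (δ / 2) • x + w ∈ N := by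
    have h1 : ∀ i, (n * η) • x - b.repr w i • b i ∈ N ∧ (n * η) • x + b.repr w i • b i ∈ N :=
      fun i => smul_bound hxN (hbS i) (hwrepr i)
    have h2 : 0 ≤ δ / 2 - n * (n * η) := by
      have h3 : (n : ℝ) * (n * η) = δ / 2 * ((n : ℝ) ^ 2 / ((n : ℝ) ^ 2 + 1)) := by
        rw [hη]; field_simp
      have h4 : (n : ℝ) ^ 2 / ((n : ℝ) ^ 2 + 1) ≤ 1 := by
        rw [div_le_one (by positivity)]; linarith
      rw [h3]
      have h5 : 0 ≤ δ / 2 := by linarith
      nlinarith
    have h3 : (δ / 2 - n * (n * η)) • x ∈ N := N.smul_mem h2 hxN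
    have hws : w = ∑ i, b.repr w i • b i := (b.sum_repr w).symm
    constructor
    · have h4 : ∑ i, ((n * η) • x - b.repr w i • b i) ∈ N := N.sum_mem (fun i _ => (h1 i).1)
      have h5 := N.add_mem h3 h4
      convert h5 using 1
      rw [Finset.sum_sub_distrib, ← hws, Finset.sum_const, Finset.card_univ, Fintype.card_fin,
        ← Nat.cast_smul_eq_nsmul ℝ]
      module
    · have h4 : ∑ i, ((n * η) • x + b.repr w i • b i) ∈ N := N.sum_mem (fun i _ => (h1 i).2)
      have h5 := N.add_mem h3 h4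
      convert h5 using 1
      rw [Finset.sum_add_distrib, ← hws, Finset.sum_const, Finset.card_univ, Fintype.card_fin,
        ← Nat.cast_smul_eq_nsmul ℝ]
      module
  clear_value w
  have hδ2 : (0 : ℝ) ≤ 2 / δ := by positivity
  have hδ3 : (0 : ℝ) ≤ δ / 2 := by positivity
  have hz' : (2 / δ) • w ∈ sball N x := by
    constructor
    · have := N.smul_mem hδ2 hwN.1
      convert this using 1
      change x - (2 / δ) • w = (2 / δ) • ((δ / 2) • x - w)
      rw [smul_sub, smul_smul]
      have : 2 / δ * (δ / 2) = 1 := by field_simp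
      rw [this, one_smul]
    · have := N.smul_mem hδ2 hwN.2
      convert this using 1
      change x + (2 / δ) • w = (2 / δ) • ((δ / 2) • x + w)
      rw [smul_add, smul_smul]
      have : 2 / δ * (δ / 2) = 1 := by field_simp
      rw [this, one_smul]
  have hfin : (g₁⁻¹ * g₂) z - z = g₁⁻¹ w := by
    rw [hw, map_sub]
    congr 1
    change z = g₁.symm (g₁ z)
    rw [LinearEquiv.symm_apply_apply]
  rw [hfin]
  obtain ⟨-, h1, h2⟩ := hG g₁ hg₁ _ hz'
  rw [map_smul] at h1 h2
  have e1 : δ / 2 * (2 / δ) = 1 := by field_simp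
  constructor
  · have := N.smul_mem hδ3 h1
    convert this using 1
    change δ • x - g₁⁻¹ w = (δ / 2) • ((2 : ℝ) • x - (2 / δ) • g₁⁻¹ w)
    rw [smul_sub, smul_smul, smul_smul, e1, one_smul]
    congr 2
    ring
  · have := N.smul_mem hδ3 h2
    convert this using 1
    change δ • x + g₁⁻¹ w = (δ / 2) • ((2 : ℝ) • x + (2 / δ) • g₁⁻¹ w)
    rw [smul_add, smul_smul, smul_smul, e1, one_smul]
    congr 2
    ring

end Pool.Agent.Lib.Pad47bbV
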