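import Pool.Agent.Lib.Pad47bbV.Final

/-!
The thick points are cocompact if and only if, for every `ε`, the `ε`-thick part of the quotient has
finite volume.
-/

open Set Topology MeasureTheory
open scoped ENNReal

namespace Pool.Agent.Lib.Pad47bbV

open Pool.Agent.Lib.Pad47bb Pool.Agent.Lib.Pad47bbQ

variable {V : Type*} [NormedAddCommGroup V] [NormedSpace ℝ V]

/-- For every `ε > 0`, the quotient by `Γ` of the set of the `ε`-thick points `x` of the interior of
`N` for which the order interval `[0, x]` has volume at most `1` has finite volume. -/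
def ThickVolume [MeasurableSpace V] (μ : Measure V) (L : Submodule ℤ V) (N : PointedCone ℝ V)
    (Γ : Subgroup (V ≃ₗ[ℝ] V)) : Prop :=
  ∀ ε : ℝ, 0 < ε → ∃ D : Set V, MeasurableSet D ∧ μ D < ∞ ∧
    ∀ x ∈ interior (N : Set V), Thick L N ε x → orderVol μ N x ≤ 1 → ∃ g ∈ Γ, g x ∈ D

/-- Finite volume of the whole quotient is stronger. -/
theorem FiniteVolume.thickVolume [MeasurableSpace V] {μ : Measure V} {L : Submodule ℤ V}
    {N : PointedCone ℝ V} {Γ : Subgroup (V ≃ₗ[ℝ] V)} (h : FiniteVolume μ N Γ) :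
    ThickVolume μ L N Γ := by
  intro ε _
  obtain ⟨D, hD, hDfin, hcov⟩ := h
  exact ⟨D, hD, hDfin, fun x hx _ hv => hcov x hx hv⟩

variable [FiniteDimensional ℝ V] {L : Submodule ℤ V} [DiscreteTopology L] [IsZLattice ℝ L]

omit [FiniteDimensional ℝ V] [DiscreteTopology L] [IsZLattice ℝ L] in
/-- the points of the box of an `ε`-thick point are `ε / 2`-thick -/
theorem thick_of_vbox {N : PointedCone ℝ V} {ε : ℝ} (hε : 0 < ε) {x z : V}
    (hx : Thick L N ε x) (hz : z ∈ vbox N x) : Thick L N (ε / 2) z := by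
  obtain ⟨y, hy, hyi, T, hT, h1, h2⟩ := hx
  obtain ⟨hz1, hz2⟩ := hz
  refine ⟨y, hy, hyi, (3 / 2) * T, by positivity, ?_, fun v hv hvN hv0 hc => h2 v hv hvN hv0 ?_⟩
  · have h3 := N.add_mem (PointedCone.smul_mem N (show (0 : ℝ) ≤ (3 / 2) * T by positivity) hz1) h1
    have e : ((3 / 2) * T) • (z - (2 / 3 : ℝ) • x) + (T • x - y) = ((3 / 2) * T) • z - y := by
      module
    rwa [e] at h3
  · have h3 := N.add_mem (PointedCone.smul_mem N
      (show (0 : ℝ) ≤ (ε / 2) * ((3 / 2) * T) by positivity) hz2) hc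
    have e : ((ε / 2) * ((3 / 2) * T)) • ((4 / 3 : ℝ) • x - z) +
        ((ε / 2 * ((3 / 2) * T)) • z - v) = (ε * T) • x - v := by
      module
    rwa [e] at h3

theorem thickCocompact_of_thickVolume [Nontrivial V] [MeasurableSpace V] [BorelSpace V]
    (μ : Measure V) [μ.IsAddHaarMeasure] {N : PointedCone ℝ V} (hN : Good N)
    {Γ : Subgroup (V ≃ₗ[ℝ] V)} (hA : Acts L N Γ) (hvol : ThickVolume μ L N Γ) :
    ThickCocompact L N Γ := by
  classical
  intro ε₀ hε₀
  set n := Module.finrank ℝ V with hn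
  have hn0 : 0 < n := Module.finrank_pos
  set ε : ℝ := min ε₀ (1 / 2) with hε
  have hε0 : 0 < ε := lt_min hε₀ (by norm_num)
  have hε1 : ε < 1 := lt_of_le_of_lt (min_le_right _ _) (by norm_num)
  have hεle : ε ≤ ε₀ := min_le_left _ _
  obtain ⟨K, hK⟩ := exists_small_quotient V hε0
  obtain ⟨D, hD, hDfin, hDcov⟩ := hvol (ε / 2) (by positivity)
  -- normalised thick points
  set P : V → Prop := fun x => x ∈ interior (N : Set V) ∧
    orderVol μ N x = ENNReal.ofReal ((3 / 4 : ℝ) ^ n) ∧ Thick L N ε x with hP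
  set c₀ : ℝ≥0∞ := ENNReal.ofReal ((1 / 2 : ℝ) ^ n) with hc₀
  have hc₀pos : c₀ ≠ 0 := by
    rw [hc₀, Ne, ENNReal.ofReal_eq_zero, not_le]
    positivity
  have hc₀top : c₀ ≠ ∞ := ENNReal.ofReal_ne_top
  have hbox : ∀ x, P x → μ (vbox N x) = c₀ := by
    intro x hx
    have h1 := measure_box μ (N := N) x
    have h2 : μ (vbox N x) = ENNReal.ofReal ((2 / 3) ^ n) * orderVol μ N x := h1
    rw [h2, hx.2.1, ← ENNReal.ofReal_mul (by positivity), ← mul_pow, hc₀]
    norm_num
  have hcov : ∀ x, P x → ∀ z ∈ vbox N x, ∃ g ∈ Γ, g z ∈ D := by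
    intro x hx z hz
    apply hDcov
    · have := interior_add_mem (interior_smul_mem hx.1 (show (0 : ℝ) < 2 / 3 by norm_num)) hz.1
      have e : (2 / 3 : ℝ) • x + (z - (2 / 3 : ℝ) • x) = z := by abel
      rwa [e] at this
    · exact thick_of_vbox hε0 hx.2.2 hz
    · refine (orderVol_mono μ hz.2).trans ?_
      rw [orderVol_smul μ N (by norm_num) x, hx.2.1, ← ENNReal.ofReal_mul (by positivity), ← hn,
        ← mul_pow]
      norm_num
  have hpack : ∀ F : Finset V, (∀ x ∈ F, P x) →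
      (∀ x ∈ F, ∀ y ∈ F, x ≠ y → ∀ g ∈ Γ, Disjoint ((g : V → V) '' vbox N x) (vbox N y)) →
      (F.card : ℝ≥0∞) * c₀ ≤ K * μ D := by
    intro F hF hdisj
    refine packing μ Γ (countable_of_acts hA) ?_ hD F (vbox N)
      (fun x _ => (vbox_closed hN x).measurableSet) (fun x hx => hcov x (hF x hx))
      (fun x hx => (hbox x (hF x hx)).ge) ?_ hdisj
    · intro g hg S
      exact measure_image_eq μ (L := L) (hA.map_lattice g hg) (hA.map_lattice g⁻¹ (inv_mem hg)) S
    · intro x hx G hG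
      exact few_of_thick hN hA hε0 hε1 hK (hF x hx).1 (hF x hx).2.2 G hG
  -- bounded cardinality
  set fam : Set ℕ := {k | ∃ F : Finset V, (∀ x ∈ F, P x) ∧
    (∀ x ∈ F, ∀ y ∈ F, x ≠ y → ∀ g ∈ Γ, Disjoint ((g : V → V) '' vbox N x) (vbox N y)) ∧
    F.card = k} with hfam
  have hbdd : BddAbove fam := by
    have hfin : (K : ℝ≥0∞) * μ D / c₀ ≠ ∞ :=
      ENNReal.div_ne_top (ENNReal.mul_ne_top (ENNReal.natCast_ne_top K) hDfin.ne) hc₀pos
    refine ⟨⌈((K : ℝ≥0∞) * μ D / c₀).toReal⌉₊, ?_⟩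
    rintro k ⟨F, h1, h2, rfl⟩
    have h3 := hpack F h1 h2
    have h4 : (F.card : ℝ≥0∞) ≤ (K : ℝ≥0∞) * μ D / c₀ :=
      (ENNReal.le_div_iff_mul_le (Or.inl hc₀pos) (Or.inl hc₀top)).2 h3
    have h5 := ENNReal.toReal_mono hfin h4
    rw [ENNReal.toReal_natCast] at h5
    exact_mod_cast h5.trans (Nat.le_ceil _)
  have hnonempty : fam.Nonempty := ⟨0, ∅, by simp, by simp, by simp⟩
  obtain ⟨F, hFP, hFd, hFc⟩ := Nat.sSup_mem hnonempty hbdd
  refine ⟨⋃ y ∈ F, cset N y, F.finite_toSet.isCompact_biUnion (fun y _ => cset_compact hN y), ?_, ?_⟩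
  · intro z hz
    simp only [mem_iUnion] at hz
    obtain ⟨y, hy, hz⟩ := hz
    exact cset_subset (hFP y hy).1 hz
  intro x hx hthick
  -- normalise
  have hv0 : orderVol μ N x ≠ 0 := (orderVol_pos μ hN hx).ne'
  have hvt : orderVol μ N x ≠ ∞ := (orderVol_lt_top μ hN x).ne
  set v : ℝ := (orderVol μ N x).toReal with hv
  have hvpos : 0 < v := ENNReal.toReal_pos hv0 hvt
  set s : ℝ := (3 / 4) * (v ^ (-(1 / (n : ℝ)))) with hs
  have hspos : 0 < s := by positivity
  have hspow : s ^ n * v = (3 / 4 : ℝ) ^ n := by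
    rw [hs, mul_pow, ← Real.rpow_natCast (v ^ _) n, ← Real.rpow_mul hvpos.le]
    have e : -(1 / (n : ℝ)) * n = -1 := by
      have : (n : ℝ) ≠ 0 := by exact_mod_cast hn0.ne'
      field_simp
    rw [e, Real.rpow_neg_one, mul_assoc, inv_mul_cancel₀ hvpos.ne', mul_one]
  have hPs : P (s • x) := by
    refine ⟨interior_smul_mem hx hspos, ?_, thick_smul hspos (thick_anti hεle (interior_subset hx)
      hthick)⟩
    rw [orderVol_smul μ N hspos x, ← hn, ← ENNReal.ofReal_toReal hvt, ← ENNReal.ofReal_mul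
      (by positivity), ← hv, hspow]
  have hfinish : ∀ g ∈ Γ, ∀ b ∈ F, g (s • x) ∈ cset N b →
      ∃ g ∈ Γ, ∃ s : ℝ, 0 < s ∧ s • g x ∈ ⋃ y ∈ F, cset N y := by
    intro g hg b hb hgb
    refine ⟨g, hg, s, hspos, ?_⟩
    simp only [mem_iUnion]
    refine ⟨b, hb, ?_⟩
    rwa [map_smul] at hgb
  by_cases hxF : s • x ∈ F
  · refine hfinish 1 (one_mem Γ) _ hxF ⟨?_, ?_⟩
    · have e : (1 : V ≃ₗ[ℝ] V) (s • x) - (1 / 2 : ℝ) • (s • x) = (1 / 2 : ℝ) • (s • x) := by
        show s • x - (1 / 2 : ℝ) • (s • x) = _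
        module
      rw [e]
      exact PointedCone.smul_mem N (by norm_num) (interior_subset hPs.1)
    · have e : (2 : ℝ) • (s • x) - (1 : V ≃ₗ[ℝ] V) (s • x) = s • x := by
        show (2 : ℝ) • (s • x) - s • x = _
        module
      rw [e]
      exact interior_subset hPs.1
  by_contra hcon
  have hno : ∀ g ∈ Γ, ∀ b ∈ F, g (s • x) ∉ cset N b := fun g hg b hb h =>
    hcon (hfinish g hg b hb h)
  have hins : (insert (s • x) F).card ∈ fam := by
    refine ⟨insert (s • x) F, ?_, ?_, rfl⟩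
    · intro y hy
      rcases Finset.mem_insert.1 hy with rfl | hy
      · exact hPs
      · exact hFP y hy
    · intro a ha b hb hab g hg
      rcases Finset.mem_insert.1 ha with rfl | ha
      · rcases Finset.mem_insert.1 hb with rfl | hb
        · exact absurd rfl hab
        · rw [Set.disjoint_left]
          rintro _ ⟨z, hz, rfl⟩ hgz
          exact hno g hg b hb (mem_cset hA hg hz hgz)
      · rcases Finset.mem_insert.1 hb with rfl | hb
        · rw [Set.disjoint_left]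
          rintro _ ⟨z, hz, rfl⟩ hgz
          refine hno g⁻¹ (inv_mem hg) a ha (mem_cset hA (inv_mem hg) hgz ?_)
          have e : g⁻¹ (g z) = z := g.symm_apply_apply z
          rw [e]
          exact hz
        · exact hFd a ha b hb hab g hg
  have h1 := le_csSup hbdd hins
  rw [Finset.card_insert_of_notMem hxF] at h1
  omega

/-- `orderVol` is invariant under `Γ`. -/
theorem orderVol_map [MeasurableSpace V] [BorelSpace V] (μ : Measure V) [μ.IsAddHaarMeasure]
    {N : PointedCone ℝ V} {Γ : Subgroup (V ≃ₗ[ℝ] V)} (hA : Acts L N Γ) {g : V ≃ₗ[ℝ] V}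
    (hg : g ∈ Γ) (x : V) : orderVol μ N (g x) = orderVol μ N x := by
  have h : {y : V | y ∈ N ∧ g x - y ∈ N} = (g : V → V) '' {y : V | y ∈ N ∧ x - y ∈ N} := by
    ext y
    constructor
    · rintro ⟨h1, h2⟩
      refine ⟨g⁻¹ y, ⟨hA.map_cone g⁻¹ (inv_mem hg) _ h1, ?_⟩, g.apply_symm_apply y⟩
      have h3 := hA.map_cone g⁻¹ (inv_mem hg) _ h2
      rw [map_sub] at h3
      have e : g⁻¹ (g x) = x := g.symm_apply_apply x
      rwa [e] at h3
    · rintro ⟨z, ⟨h1, h2⟩, rfl⟩
      refine ⟨hA.map_cone g hg _ h1, ?_⟩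
      have h3 := hA.map_cone g hg _ h2
      rwa [map_sub] at h3
  unfold orderVol
  rw [h]
  exact measure_image_eq μ (L := L) (hA.map_lattice g hg) (hA.map_lattice g⁻¹ (inv_mem hg)) _

theorem thickVolume_of_thickCocompact [Nontrivial V] [MeasurableSpace V] [BorelSpace V]
    (μ : Measure V) [μ.IsAddHaarMeasure] {N : PointedCone ℝ V} (hN : Good N)
    {Γ : Subgroup (V ≃ₗ[ℝ] V)} (hA : Acts L N Γ) (h : ThickCocompact L N Γ) :
    ThickVolume μ L N Γ := by
  classical
  intro ε hε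
  obtain ⟨Q, hQ, hQN, hcov⟩ := h ε hε
  set n := Module.finrank ℝ V with hn
  have hn0 : n ≠ 0 := (Module.finrank_pos (R := ℝ) (M := V)).ne'
  -- a point `e` of the interior with `q - e ∈ N` for all `q ∈ Q`
  obtain ⟨r, hr, hrQ⟩ := hQ.exists_cthickening_subset_open isOpen_interior hQN
  obtain ⟨e₀, he₀⟩ := hN.interior_nonempty
  set t : ℝ := r / (‖e₀‖ + 1) with ht
  have htpos : 0 < t := by positivity
  set e : V := t • e₀ with he
  have heint : e ∈ interior (N : Set V) := interior_smul_mem he₀ htpos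
  have henorm : ‖e‖ ≤ r := by
    rw [he, norm_smul, Real.norm_of_nonneg htpos.le, ht, div_mul_eq_mul_div, div_le_iff₀
      (by positivity)]
    nlinarith [norm_nonneg e₀]
  have hqe : ∀ q ∈ Q, q - e ∈ N := by
    intro q hq
    refine interior_subset (hrQ (Metric.closedBall_subset_cthickening hq r ?_))
    rw [Metric.mem_closedBall, dist_eq_norm]
    have : q - e - q = -e := by abel
    rw [this, norm_neg]
    exact henorm
  have hv0 : orderVol μ N e ≠ 0 := (orderVol_pos μ hN heint).ne'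
  have hvt : orderVol μ N e ≠ ∞ := (orderVol_lt_top μ hN e).ne
  set c : ℝ := (orderVol μ N e).toReal with hc
  have hcpos : 0 < c := ENNReal.toReal_pos hv0 hvt
  obtain ⟨C, hC⟩ := hQ.isBounded.exists_norm_le
  set m : ℝ := min 1 c with hm
  have hmpos : 0 < m := lt_min one_pos hcpos
  refine ⟨Metric.closedBall 0 (|C| / m), Metric.isClosed_closedBall.measurableSet,
    measure_closedBall_lt_top, ?_⟩
  intro x hx hthick hvol
  obtain ⟨g, hg, s, hs, hsq⟩ := hcov x hx hthick
  refine ⟨g, hg, ?_⟩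
  rw [mem_closedBall_zero_iff]
  -- volume of `s • g x`
  have h1 : orderVol μ N e ≤ orderVol μ N (s • g x) := orderVol_mono μ (hqe _ hsq)
  rw [orderVol_smul μ N hs, orderVol_map μ hA hg x] at h1
  have h2 : orderVol μ N e ≤ ENNReal.ofReal (s ^ n) := by
    refine h1.trans ?_
    calc ENNReal.ofReal (s ^ Module.finrank ℝ V) * orderVol μ N x
        ≤ ENNReal.ofReal (s ^ Module.finrank ℝ V) * 1 := mul_le_mul_right hvol _
      _ = ENNReal.ofReal (s ^ n) := by rw [mul_one]
  have h3 : c ≤ s ^ n := by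
    have := ENNReal.toReal_mono ENNReal.ofReal_ne_top h2
    rwa [ENNReal.toReal_ofReal (by positivity)] at this
  have h4 : m ≤ s := by
    by_contra hcon
    push Not at hcon
    have hs1 : s ≤ 1 := (hcon.trans_le (min_le_left _ _)).le
    have h5 : s ^ n ≤ s := by
      calc s ^ n ≤ s ^ 1 := pow_le_pow_of_le_one hs.le hs1 (Nat.one_le_iff_ne_zero.2 hn0)
        _ = s := pow_one s
    have h6 : m ≤ c := min_le_right _ _
    linarith
  have h5 : ‖s • g x‖ ≤ |C| := (hC _ hsq).trans (le_abs_self C)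
  rw [norm_smul, Real.norm_of_nonneg hs.le] at h5
  rw [le_div_iff₀ hmpos, mul_comm]
  calc m * ‖g x‖ ≤ s * ‖g x‖ := mul_le_mul_of_nonneg_right h4 (norm_nonneg _)
    _ ≤ |C| := h5

theorem thickVolume_iff [Nontrivial V] [MeasurableSpace V] [BorelSpace V]
    (μ : Measure V) [μ.IsAddHaarMeasure] {N : PointedCone ℝ V} (hN : Good N)
    {Γ : Subgroup (V ≃ₗ[ℝ] V)} (hA : Acts L N Γ) :
    ThickVolume μ L N Γ ↔ ThickCocompact L N Γ :=
  ⟨thickCocompact_of_thickVolume μ hN hA, thickVolume_of_thickCocompact μ hN hA⟩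

end Pool.Agent.Lib.Pad47bbV
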