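import Pool.Agent.Lib.Pad47bbV.Companion
import Pool.Agent.Lib.Pad47bb.RatNbhd

/-!
Forms that are bounded at an interior lattice point can be moved by `Γ` into a compact set of
positive functionals, when the thick points are cocompact.

Sketch. `n = finrank ℝ V ≥ 1`. Let `ε = 1 / (2 n T)` and let `Q` be given by `h ε`. Let `c, M` be the
constants of `comp_bounds` for `Q`. Let `ξ` be a form, positive, `y₀ ∈ L` interior, `ξ y₀ ≤ T`. Note
`y₀ ≠ 0` (`0` is not interior: `N` contains no line and `V` is nontrivial), `ξ y₀ > 0`. Let `x` be a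
companion of `ξ` (`exists_comp`). Then `Thick L N ε x` holds with `y = y₀` and the number `ξ y₀`
(positive): `ξ y₀ • x - y₀ ∈ N`; and if `(ε * ξ y₀) • x - v ∈ N` with `v` a nonzero lattice point of
`N` then `1 ≤ ξ v ≤ ε * ξ y₀ * n ≤ 1 / 2` (`ξ ≥ 0` on `N`), a contradiction. So `q = s • g x ∈ Q` for
some `g ∈ Γ`, `s > 0`. The functional `ζ = ξ ∘ g⁻¹` has companion `g x`, and `λ = s⁻¹ • ζ` has
companion `q`: `λ q = ζ (g x) = n`, `λ y • q - y = ζ y • g x - y = g (ξ (g⁻¹ y) • x - g⁻¹ y) ∈ N`.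
Hence `c ‖y‖ ≤ λ y` on `N` and `|λ y| ≤ M ‖y‖`.
Bounds for `s`: fix once and for all a nonzero lattice point `v₀ ∈ N` (e.g.
`exists_lattice_interior` from `Pad47bb.RatNbhd`) and `m > 0` with `m ≤ ‖v‖` for all nonzero
`v ∈ L` (from `finite_of_bounded`). `ζ` is a form (`g⁻¹` preserves `L`, `N`), so
`1 ≤ ζ v₀ = s λ v₀ ≤ s M ‖v₀‖`; and `T ≥ ξ y₀ = ζ (g y₀) = s λ (g y₀) ≥ s c m`. So
`ζ = s λ` satisfies the bounds with `c' = c / (M ‖v₀‖)` and `M' = M T / (c m)`.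
The element of `Γ` in the conclusion is `g⁻¹`.
Estimated 1.2 h.
-/

open Set Topology

namespace Pool.Agent.Lib.Pad47bbV

open Pool.Agent.Lib.Pad47bb Pool.Agent.Lib.Pad47bbQ

variable {V : Type*} [NormedAddCommGroup V] [NormedSpace ℝ V] [FiniteDimensional ℝ V]
  {L : Submodule ℤ V} [DiscreteTopology L] [IsZLattice ℝ L]

namespace TransferAux

omit [FiniteDimensional ℝ V] in
theorem zero_notMem_interior [Nontrivial V] {N : PointedCone ℝ V} (hN : Good N) :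
    (0 : V) ∉ interior (N : Set V) := by
  intro h0
  obtain ⟨δ, hδ, hball⟩ := Metric.isOpen_iff.1 isOpen_interior 0 h0
  obtain ⟨v, hv⟩ := exists_ne (0 : V)
  have hnv : 0 < ‖v‖ := norm_pos_iff.2 hv
  have key : ∀ w : V, ‖w‖ < δ → w ∈ N := by
    intro w hw
    exact interior_subset (hball (by simpa [Metric.mem_ball, dist_eq_norm] using hw))
  have h1 : ‖(δ / (2 * ‖v‖)) • v‖ < δ := by
    rw [norm_smul, Real.norm_of_nonneg (by positivity)]
    have : δ / (2 * ‖v‖) * ‖v‖ = δ / 2 := by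
      field_simp
    rw [this]
    linarith
  have h2 := key _ h1
  have h3 := key (-((δ / (2 * ‖v‖)) • v)) (by rw [norm_neg]; exact h1)
  have h4 := hN.salient _ h2 h3
  rcases smul_eq_zero.1 h4 with h5 | h5
  · have : 0 < δ / (2 * ‖v‖) := by positivity
    linarith
  · exact hv h5

omit [IsZLattice ℝ L] in
theorem exists_min_norm : ∃ m : ℝ, 0 < m ∧ ∀ v ∈ L, v ≠ 0 → m ≤ ‖v‖ := by
  have hfin := finite_of_bounded L 1
  have hfin2 : {x : V | (x ∈ L ∧ ‖x‖ ≤ 1) ∧ x ≠ 0}.Finite := hfin.subset (fun x hx => hx.1)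
  rcases Set.eq_empty_or_nonempty {x : V | (x ∈ L ∧ ‖x‖ ≤ 1) ∧ x ≠ 0} with he | hne
  · refine ⟨1, one_pos, fun v hv hv0 => ?_⟩
    by_contra hcon
    push Not at hcon
    have : v ∈ {x : V | (x ∈ L ∧ ‖x‖ ≤ 1) ∧ x ≠ 0} := ⟨⟨hv, hcon.le⟩, hv0⟩
    rw [he] at this
    exact this
  · obtain ⟨w, hw, hmin⟩ := hfin2.exists_minimalFor (fun x => ‖x‖) _ hne
    refine ⟨‖w‖, norm_pos_iff.2 hw.2, fun v hv hv0 => ?_⟩
    by_cases h1 : ‖v‖ ≤ 1
    · by_contra hcon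
      push Not at hcon
      have := hmin ⟨⟨hv, h1⟩, hv0⟩ hcon.le
      exact absurd this (not_le.2 hcon)
    · push Not at h1
      exact hw.1.2.trans h1.le

end TransferAux

open TransferAux in
theorem transfer [Nontrivial V] {N : PointedCone ℝ V} (hN : Good N)
    {Γ : Subgroup (V ≃ₗ[ℝ] V)} (hA : Acts L N Γ) (h : ThickCocompact L N Γ) {T : ℝ}
    (hT : 0 < T) :
    ∃ c : ℝ, 0 < c ∧ ∃ M : ℝ, 0 < M ∧ ∀ ξ : V →L[ℝ] ℝ, IsForm L N ξ → IsPos N ξ →
      (∃ y ∈ L, y ∈ interior (N : Set V) ∧ ξ y ≤ T) →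
      ∃ g ∈ Γ, (∀ y ∈ N, c * ‖y‖ ≤ ξ (g y)) ∧ ∀ y, |ξ (g y)| ≤ M * ‖y‖ := by
  have hn1 : 0 < Module.finrank ℝ V := Module.finrank_pos
  set n : ℝ := (Module.finrank ℝ V : ℝ) with hn
  have hn0 : 0 < n := by
    rw [hn]
    exact_mod_cast hn1
  set ε : ℝ := 1 / (2 * n * T) with hε
  have hε0 : 0 < ε := by positivity
  obtain ⟨Q, hQ, hQN, hcov⟩ := h ε hε0
  obtain ⟨c, hc, M, hM, hcomp⟩ := comp_bounds hN hQ hQN
  obtain ⟨v₀, hv₀L, hv₀0, hv₀i⟩ := exists_lattice_interior L (C := N) hN.interior_nonempty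
  obtain ⟨m, hm, hmin⟩ := exists_min_norm (L := L)
  have hnv₀ : 0 < ‖v₀‖ := norm_pos_iff.2 hv₀0
  refine ⟨c / (M * ‖v₀‖), by positivity, M * T / (c * m), by positivity, ?_⟩
  rintro ξ hξ hpos ⟨y₀, hy₀L, hy₀i, hy₀T⟩
  have hy₀N : y₀ ∈ N := interior_subset hy₀i
  have hy₀0 : y₀ ≠ 0 := by
    rintro rfl
    exact zero_notMem_interior hN hy₀i
  have hξy₀ : 0 < ξ y₀ := hpos y₀ hy₀N hy₀0
  have hξ0 : ∀ y ∈ N, 0 ≤ ξ y := by
    intro y hy
    by_cases hy0 : y = 0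
    · simp [hy0]
    · exact (hpos y hy hy0).le
  obtain ⟨x, hxi, hx1, hx2⟩ := exists_comp hN hpos
  have hthick : Thick L N ε x := by
    refine ⟨y₀, hy₀L, hy₀i, ξ y₀, hξy₀, hx2 y₀ hy₀N, ?_⟩
    intro v hvL hvN hv0 hmem
    have h1 := hξ0 _ hmem
    rw [map_sub, map_smul, smul_eq_mul, hx1] at h1
    have h2 := hξ v hvL hvN hv0
    have h3 : ε * ξ y₀ * n ≤ 1 / 2 := by
      calc ε * ξ y₀ * n ≤ ε * T * n := by gcongr
        _ = 1 / 2 := by
          rw [hε]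
          field_simp
    linarith
  obtain ⟨g, hg, s, hs, hq⟩ := hcov x hxi hthick
  have hgi : g⁻¹ ∈ Γ := Γ.inv_mem hg
  have hgg : ∀ y, g (g⁻¹ y) = y := fun y => g.apply_symm_apply y
  have hgg' : ∀ y, g⁻¹ (g y) = y := fun y => g.symm_apply_apply y
  set lam : V →L[ℝ] ℝ :=
    s⁻¹ • ξ.comp (LinearMap.toContinuousLinearMap ((g⁻¹ : V ≃ₗ[ℝ] V) : V →ₗ[ℝ] V)) with hlam
  have hlamv : ∀ y, lam y = s⁻¹ * ξ (g⁻¹ y) := by
    intro y
    rw [hlam]
    simp
  have hsl : ∀ y, ξ (g⁻¹ y) = s * lam y := by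
    intro y
    rw [hlamv, ← mul_assoc, mul_inv_cancel₀ hs.ne', one_mul]
  have hC : Comp N lam (s • g x) := by
    constructor
    · rw [hlamv, map_smul, hgg', map_smul, smul_eq_mul, ← mul_assoc, inv_mul_cancel₀ hs.ne',
        one_mul]
      exact hx1
    · intro y hy
      have h1 : lam y • (s • g x) - y = g (ξ (g⁻¹ y) • x - g⁻¹ y) := by
        rw [map_sub, map_smul, hgg, smul_smul, hlamv]
        congr 2
        field_simp
      rw [h1]
      exact hA.map_cone g hg _ (hx2 _ (hA.map_cone _ hgi y hy))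
  obtain ⟨hlow, hup⟩ := hcomp lam (s • g x) hq hC
  -- lower bound of `s`
  have hs1 : 1 ≤ s * (M * ‖v₀‖) := by
    have h1 : (1 : ℝ) ≤ ξ (g⁻¹ v₀) := by
      apply hξ
      · exact hA.map_lattice _ hgi _ hv₀L
      · exact hA.map_cone _ hgi _ (interior_subset hv₀i)
      · intro h0
        apply hv₀0
        rw [← hgg v₀, h0, map_zero]
    rw [hsl] at h1
    refine h1.trans ?_
    apply mul_le_mul_of_nonneg_left _ hs.le
    exact (le_abs_self _).trans (hup v₀)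
  -- upper bound of `s`
  have hs2 : s * (c * m) ≤ T := by
    have h1 : ξ y₀ = s * lam (g y₀) := by
      rw [← hsl, hgg']
    have h2 : c * ‖g y₀‖ ≤ lam (g y₀) := hlow _ (hA.map_cone g hg _ hy₀N)
    have h3 : m ≤ ‖g y₀‖ := by
      apply hmin _ (hA.map_lattice g hg _ hy₀L)
      intro h0
      apply hy₀0
      rw [← hgg' y₀, h0, map_zero]
    calc s * (c * m) ≤ s * lam (g y₀) := by
          apply mul_le_mul_of_nonneg_left _ hs.le
          exact (mul_le_mul_of_nonneg_left h3 hc.le).trans h2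
      _ = ξ y₀ := h1.symm
      _ ≤ T := hy₀T
  refine ⟨g⁻¹, hgi, ?_, ?_⟩
  · intro y hy
    rw [hsl]
    have h1 := hlow y hy
    have h2 : c / (M * ‖v₀‖) ≤ s * c := by
      rw [div_le_iff₀ (by positivity)]
      nlinarith
    calc c / (M * ‖v₀‖) * ‖y‖ ≤ s * c * ‖y‖ := mul_le_mul_of_nonneg_right h2 (norm_nonneg y)
      _ = s * (c * ‖y‖) := by ring
      _ ≤ s * lam y := mul_le_mul_of_nonneg_left h1 hs.le
  · intro y
    rw [hsl, abs_mul, abs_of_pos hs]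
    have h1 := hup y
    have h2 : s * M ≤ M * T / (c * m) := by
      rw [le_div_iff₀ (by positivity)]
      nlinarith
    calc s * |lam y| ≤ s * (M * ‖y‖) := mul_le_mul_of_nonneg_left h1 hs.le
      _ = s * M * ‖y‖ := by ring
      _ ≤ M * T / (c * m) * ‖y‖ := mul_le_mul_of_nonneg_right h2 (norm_nonneg y)

end Pool.Agent.Lib.Pad47bbV
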