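import Pool.Agent.Lib.Pad47bbV.Duality

/-!
A group element `h ≠ 1` that moves the order interval `[-x, x]` by at most `δ x`, `δ < 1`, is
unipotent, and `x` is not `δ`-thick.
-/

open Set Topology Filter

namespace Pool.Agent.Lib.Pad47bbV

open Pool.Agent.Lib.Pad47bb Pool.Agent.Lib.Pad47bbQ

variable {V : Type*} [NormedAddCommGroup V] [NormedSpace ℝ V]

/-- interior points are order units -/
theorem exists_absorb {N : PointedCone ℝ V} {x : V} (hx : x ∈ interior (N : Set V)) (v : V) :
    ∃ T : ℝ, 0 < T ∧ T • x - v ∈ N ∧ T • x + v ∈ N := by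
  obtain ⟨r, hr, hball⟩ := Metric.nhds_basis_closedBall.mem_iff.1 (mem_interior_iff_mem_nhds.1 hx)
  have hv : 0 ≤ ‖v‖ := norm_nonneg v
  set T : ℝ := (‖v‖ + 1) / r with hT
  have hT0 : 0 < T := by positivity
  have hn : ‖T⁻¹ • v‖ ≤ r := by
    rw [norm_smul, Real.norm_of_nonneg (by positivity), hT, inv_div]
    rw [div_mul_eq_mul_div, div_le_iff₀ (by positivity)]
    nlinarith
  have h1 : x - T⁻¹ • v ∈ N := hball (by
    rw [Metric.mem_closedBall, dist_eq_norm]
    simpa using hn)
  have h2 : x + T⁻¹ • v ∈ N := hball (by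
    rw [Metric.mem_closedBall, dist_eq_norm]
    simpa using hn)
  refine ⟨T, hT0, ?_, ?_⟩
  · have := PointedCone.smul_mem N hT0.le h1
    rwa [smul_sub, smul_smul, mul_inv_cancel₀ hT0.ne', one_smul] at this
  · have := PointedCone.smul_mem N hT0.le h2
    rwa [smul_add, smul_smul, mul_inv_cancel₀ hT0.ne', one_smul] at this

/-- if `a ± b ∈ N` then `‖b‖` is at most a constant times `‖a‖` -/
theorem exists_norm_bound [FiniteDimensional ℝ V] {N : PointedCone ℝ V} (hN : Good N) :
    ∃ C : ℝ, 0 < C ∧ ∀ a b : V, a - b ∈ N → a + b ∈ N → ‖b‖ ≤ C * ‖a‖ := by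
  obtain ⟨f, hf⟩ := exists_pos N (fun x hx hx' => by
    rw [hN.closed.closure_eq] at hx hx'
    exact hN.salient x hx hx')
  have hpos : IsPos N f := fun x hx => hf x (subset_closure hx)
  obtain ⟨c, hc, hcb⟩ := lower_bound hN hpos
  refine ⟨2 * (‖f‖ + 1) / c, by positivity, fun a b h1 h2 => ?_⟩
  have h3 := hcb _ h1
  have h4 := hcb _ h2
  rw [map_sub] at h3
  rw [map_add] at h4
  have h5 : ‖b‖ ≤ (1 / 2) * (‖a + b‖ + ‖a - b‖) := by
    have e : b = (1 / 2 : ℝ) • ((a + b) - (a - b)) := by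
      rw [add_sub_sub_cancel, ← two_smul ℝ b, smul_smul]
      norm_num
    calc ‖b‖ = ‖(1 / 2 : ℝ) • ((a + b) - (a - b))‖ := by rw [← e]
      _ = (1 / 2) * ‖(a + b) - (a - b)‖ := by
          rw [norm_smul]
          norm_num
      _ ≤ (1 / 2) * (‖a + b‖ + ‖a - b‖) := by
          gcongr
          exact norm_sub_le _ _
  have h6 : f a ≤ (‖f‖ + 1) * ‖a‖ := by
    have := (le_abs_self _).trans (f.le_opNorm a)
    nlinarith [norm_nonneg a]
  have h7 : c * (‖a + b‖ + ‖a - b‖) ≤ 2 * f a := by linarith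
  rw [div_mul_eq_mul_div, le_div_iff₀ hc]
  have h8 : ‖b‖ * c ≤ (1 / 2) * (‖a + b‖ + ‖a - b‖) * c :=
    mul_le_mul_of_nonneg_right h5 hc.le
  have h9 : 0 ≤ (‖f‖ + 1) * ‖a‖ := by positivity
  linarith

theorem pow_small {N : PointedCone ℝ V} {x : V} {δ : ℝ} (hδ : 0 < δ) {A : Module.End ℝ V}
    (hA : ∀ z ∈ sball N x, δ • x - A z ∈ N ∧ δ • x + A z ∈ N) (m : ℕ) :
    ∀ z ∈ sball N x, δ ^ m • x - (A ^ m) z ∈ N ∧ δ ^ m • x + (A ^ m) z ∈ N := by
  induction m with
  | zero =>
    rintro z ⟨h1, h2⟩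
    simpa using And.intro h1 h2
  | succ m ih =>
    intro z hz
    obtain ⟨h1, h2⟩ := ih z hz
    have hδm : 0 < δ ^ m := pow_pos hδ m
    have hw : (δ ^ m)⁻¹ • (A ^ m) z ∈ sball N x := by
      constructor
      · have := PointedCone.smul_mem N (inv_nonneg.2 hδm.le) h1
        rwa [smul_sub, smul_smul, inv_mul_cancel₀ hδm.ne', one_smul] at this
      · have := PointedCone.smul_mem N (inv_nonneg.2 hδm.le) h2
        rwa [smul_add, smul_smul, inv_mul_cancel₀ hδm.ne', one_smul] at this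
    obtain ⟨h3, h4⟩ := hA _ hw
    have e : A ((δ ^ m)⁻¹ • (A ^ m) z) = (δ ^ m)⁻¹ • (A ^ (m + 1)) z := by
      rw [map_smul, pow_succ', Module.End.mul_apply]
    rw [e] at h3 h4
    constructor
    · have := PointedCone.smul_mem N hδm.le h3
      rwa [smul_sub, smul_smul, smul_smul, mul_inv_cancel₀ hδm.ne', one_smul, ← pow_succ] at this
    · have := PointedCone.smul_mem N hδm.le h4
      rwa [smul_add, smul_smul, smul_smul, mul_inv_cancel₀ hδm.ne', one_smul, ← pow_succ] at this

theorem tendsto_choose_div {i k : ℕ} (h : i < k) :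
    Tendsto (fun n : ℕ => (n.choose i : ℝ) / (n.choose k : ℝ)) atTop (𝓝 0) := by
  have h1 := (isEquivalent_choose i).div (isEquivalent_choose k)
  refine h1.symm.tendsto_nhds ?_
  have h2 : Tendsto (fun n : ℕ => ((k.factorial : ℝ) / i.factorial) * ((n : ℝ) ^ (k - i))⁻¹)
      atTop (𝓝 (((k.factorial : ℝ) / i.factorial) * 0)) := by
    refine Tendsto.const_mul _ ?_
    refine tendsto_inv_atTop_zero.comp ?_
    exact (tendsto_pow_atTop (by omega)).comp tendsto_natCast_atTop_atTop
  rw [mul_zero] at h2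
  refine h2.congr' ?_
  filter_upwards [eventually_gt_atTop 0] with n hn
  have hn' : (0 : ℝ) < n := by exact_mod_cast hn
  have hi : (0 : ℝ) < i.factorial := by exact_mod_cast i.factorial_pos
  have hk : (0 : ℝ) < k.factorial := by exact_mod_cast k.factorial_pos
  have e : (n : ℝ) ^ k = (n : ℝ) ^ i * (n : ℝ) ^ (k - i) := by
    rw [← pow_add]
    congr 1
    omega
  simp only [Pi.div_apply]
  rw [e]
  field_simp

theorem pow_mem_cone {N : PointedCone ℝ V} (hN : IsClosed (N : Set V)) {A : Module.End ℝ V}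
    {k : ℕ} (hk : A ^ (k + 1) = 0) (hA : ∀ y ∈ N, (1 + A) y ∈ N) {y : V} (hy : y ∈ N) :
    (A ^ k) y ∈ N := by
  have hpow : ∀ n : ℕ, ((1 + A) ^ n) y ∈ N := by
    intro n
    induction n with
    | zero => simpa using hy
    | succ n ih =>
      rw [pow_succ', Module.End.mul_apply]
      exact hA _ ih
  have hzero : ∀ m, k < m → A ^ m = 0 := by
    intro m hm
    obtain ⟨d, rfl⟩ := Nat.exists_eq_add_of_lt hm
    have : k + d + 1 = (k + 1) + d := by ring
    rw [this, pow_add, hk, zero_mul]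
  have hexp : ∀ n : ℕ, k ≤ n → ((1 + A) ^ n) y =
      ∑ m ∈ Finset.range (k + 1), (n.choose m : ℝ) • (A ^ m) y := by
    intro n hn
    rw [add_comm, (Commute.one_right A).add_pow, LinearMap.sum_apply]
    rw [← Finset.sum_subset (Finset.range_mono (Nat.succ_le_succ hn))]
    · refine Finset.sum_congr rfl fun m _ => ?_
      rw [one_pow, mul_one, Module.End.mul_apply]
      rw [Module.End.natCast_apply, map_nsmul, Nat.cast_smul_eq_nsmul]
    · intro m _ hm
      rw [Finset.mem_range, not_lt] at hm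
      rw [hzero m (by omega), zero_mul, zero_mul, LinearMap.zero_apply]
  have hlim : Tendsto (fun n : ℕ => ∑ m ∈ Finset.range (k + 1),
      ((n.choose m : ℝ) / (n.choose k : ℝ)) • (A ^ m) y) atTop (𝓝 ((A ^ k) y)) := by
    have h1 : ((A ^ k) y) = ∑ m ∈ Finset.range (k + 1), (if m = k then (1 : ℝ) else 0) • (A ^ m) y := by
      rw [Finset.sum_eq_single k]
      · simp
      · intro m _ hm
        simp [hm]
      · intro h
        simp at h
    rw [h1]
    refine tendsto_finsetSum _ fun m hm => ?_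
    refine Tendsto.smul_const ?_ _
    rw [Finset.mem_range] at hm
    split_ifs with h
    · subst h
      refine tendsto_const_nhds.congr' ?_
      filter_upwards [eventually_ge_atTop m] with n hn
      have : (n.choose m : ℝ) ≠ 0 := by exact_mod_cast (Nat.choose_pos hn).ne'
      field_simp
    · exact tendsto_choose_div (by omega)
  refine hN.mem_of_tendsto hlim ?_
  filter_upwards [eventually_ge_atTop k] with n hn
  have h2 := PointedCone.smul_mem N (inv_nonneg.2 (Nat.cast_nonneg (n.choose k) : (0 : ℝ) ≤ _))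
    (hpow n)
  rw [hexp n hn, Finset.smul_sum] at h2
  have h3 : (∑ m ∈ Finset.range (k + 1), ((n.choose m : ℝ) / (n.choose k : ℝ)) • (A ^ m) y) =
      ∑ m ∈ Finset.range (k + 1), (n.choose k : ℝ)⁻¹ • ((n.choose m : ℝ) • (A ^ m) y) := by
    refine Finset.sum_congr rfl fun m _ => ?_
    rw [smul_smul]
    congr 1
    ring
  rw [h3]
  exact h2

variable [FiniteDimensional ℝ V]
  {L : Submodule ℤ V} [DiscreteTopology L] [IsZLattice ℝ L]

theorem not_thick_of_small {N : PointedCone ℝ V} (hN : Good N)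
    {Γ : Subgroup (V ≃ₗ[ℝ] V)} (hA : Acts L N Γ) {h : V ≃ₗ[ℝ] V} (hh : h ∈ Γ) (h1 : h ≠ 1)
    {x : V} (hx : x ∈ interior (N : Set V)) {δ : ℝ} (hδ : 0 < δ) (hδ1 : δ < 1)
    (hs : Small N δ x h) : ¬ Thick L N δ x := by
  set A : Module.End ℝ V := (h : V →ₗ[ℝ] V) - 1 with hAdef
  have hAz : ∀ z, A z = h z - z := fun z => rfl
  have h1A : ∀ z, (1 + A) z = h z := fun z => by
    rw [LinearMap.add_apply, hAz]
    simp
  have hAne : A ≠ 0 := by
    intro h0
    apply h1
    ext z
    have := hAz z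
    rw [h0] at this
    have h2 : h z - z = 0 := this.symm
    exact sub_eq_zero.1 h2
  have hAL : ∀ (m : ℕ), ∀ l ∈ L, (A ^ m) l ∈ L := by
    intro m
    induction m with
    | zero => intro l hl; simpa using hl
    | succ m ih =>
      intro l hl
      rw [pow_succ', Module.End.mul_apply, hAz]
      exact L.sub_mem (hA.map_lattice h hh _ (ih l hl)) (ih l hl)
  have hsm := pow_small hδ (A := A) (x := x) (N := N) (fun z hz => hs z hz)
  -- nilpotent
  obtain ⟨C, hC, hCb⟩ := exists_norm_bound hN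
  obtain ⟨m₀, hm₀, hm₀b⟩ := exists_min_norm (L := L)
  have hnilL : ∀ l ∈ L, ∃ m : ℕ, (A ^ m) l = 0 := by
    intro l hl
    obtain ⟨T, hT, hT1, hT2⟩ := exists_absorb hx l
    have hmem : T⁻¹ • l ∈ sball N x := by
      constructor
      · have := PointedCone.smul_mem N (inv_nonneg.2 hT.le) hT1
        rwa [smul_sub, smul_smul, inv_mul_cancel₀ hT.ne', one_smul] at this
      · have := PointedCone.smul_mem N (inv_nonneg.2 hT.le) hT2
        rwa [smul_add, smul_smul, inv_mul_cancel₀ hT.ne', one_smul] at this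
    have hb : ∀ m : ℕ, ‖(A ^ m) l‖ ≤ (C * T * ‖x‖) * δ ^ m := by
      intro m
      obtain ⟨h3, h4⟩ := hsm m _ hmem
      have h5 := hCb _ _ h3 h4
      rw [map_smul, norm_smul, norm_smul, Real.norm_of_nonneg (by positivity),
        Real.norm_of_nonneg (by positivity)] at h5
      have h6 : ‖(A ^ m) l‖ = T * (T⁻¹ * ‖(A ^ m) l‖) := by field_simp
      rw [h6]
      calc T * (T⁻¹ * ‖(A ^ m) l‖) ≤ T * (C * (δ ^ m * ‖x‖)) := by gcongr
        _ = (C * T * ‖x‖) * δ ^ m := by ring
    have hlim : Tendsto (fun m : ℕ => (C * T * ‖x‖) * δ ^ m) atTop (𝓝 ((C * T * ‖x‖) * 0)) :=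
      (tendsto_pow_atTop_nhds_zero_of_lt_one hδ.le hδ1).const_mul _
    rw [mul_zero] at hlim
    obtain ⟨m, hm⟩ := (hlim.eventually (gt_mem_nhds hm₀)).exists
    refine ⟨m, ?_⟩
    by_contra hne
    exact absurd (hm₀b _ (hAL m l hl) hne) (not_le.2 ((hb m).trans_lt hm))
  have hnil : IsNilpotent A := by
    rw [Module.End.isNilpotent_iff_of_finite]
    have htop : Submodule.span ℝ (L : Set V) ≤ Module.End.maxGenEigenspace A 0 := by
      rw [Submodule.span_le]
      intro l hl
      obtain ⟨m, hm⟩ := hnilL l hl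
      rw [SetLike.mem_coe, Module.End.mem_maxGenEigenspace]
      exact ⟨m, by simpa using hm⟩
    intro v
    have hv : v ∈ Module.End.maxGenEigenspace A 0 := by
      apply htop
      rw [IsZLattice.span_top (K := ℝ) (L := L)]
      trivial
    rw [Module.End.mem_maxGenEigenspace] at hv
    simpa using hv
  obtain ⟨k, hk1, hkne, hk0⟩ : ∃ k : ℕ, 1 ≤ k ∧ A ^ k ≠ 0 ∧ A ^ (k + 1) = 0 := by
    classical
    have hex : ∃ n, A ^ n = 0 := hnil
    set n := Nat.find hex with hn
    have hspec : A ^ n = 0 := Nat.find_spec hex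
    have hn0 : n ≠ 0 := by
      intro h0
      rw [h0, pow_zero] at hspec
      apply hAne
      rw [← mul_one A, hspec, mul_zero]
    have hn1 : n ≠ 1 := by
      intro h0
      rw [h0, pow_one] at hspec
      exact hAne hspec
    refine ⟨n - 1, by omega, ?_, ?_⟩
    · exact Nat.find_min hex (by omega)
    · have : n - 1 + 1 = n := by omega
      rw [this]
      exact hspec
  have hAk : ∀ y ∈ N, (A ^ k) y ∈ N := fun y hy => pow_mem_cone hN.closed hk0 (fun y hy => by
    rw [h1A]
    exact hA.map_cone h hh y hy) hy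
  rintro ⟨y, hyL, hyN, T, hT, hTy, hno⟩
  have hyN' : y ∈ N := interior_subset hyN
  refine hno ((A ^ k) y) (hAL k y hyL) (hAk y hyN') ?_ ?_
  · intro h0
    apply hkne
    ext v
    have key : ∀ z ∈ N, (A ^ k) z = 0 := by
      intro z hz
      obtain ⟨S, hS, hS1, -⟩ := exists_absorb hyN z
      have h3 := hAk _ hS1
      rw [map_sub, map_smul, h0, smul_zero, zero_sub] at h3
      exact hN.salient _ (hAk z hz) h3
    obtain ⟨S, hS, hS1, -⟩ := exists_absorb hyN v
    have h4 := key _ hS1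
    rw [map_sub, map_smul, h0, smul_zero, zero_sub, neg_eq_zero] at h4
    rw [h4]
    rfl
  · have hmem : T⁻¹ • y ∈ sball N x := by
      constructor
      · have := PointedCone.smul_mem N (inv_nonneg.2 hT.le) hTy
        rwa [smul_sub, smul_smul, inv_mul_cancel₀ hT.ne', one_smul] at this
      · exact N.add_mem (interior_subset hx) (PointedCone.smul_mem N (inv_nonneg.2 hT.le) hyN')
    obtain ⟨h3, -⟩ := hsm k _ hmem
    have h4 := PointedCone.smul_mem N hT.le h3
    rw [smul_sub, map_smul, smul_smul, smul_smul, mul_inv_cancel₀ hT.ne', one_smul] at h4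
    have hle : δ ^ k ≤ δ := by
      calc δ ^ k ≤ δ ^ 1 := pow_le_pow_of_le_one hδ.le hδ1.le hk1
        _ = δ := pow_one δ
    have h5 : (δ * T - T * δ ^ k) • x ∈ N := by
      refine PointedCone.smul_mem N ?_ (interior_subset hx)
      nlinarith
    have h6 := N.add_mem h5 h4
    rw [sub_smul] at h6
    have e : (δ * T) • x - (T * δ ^ k) • x + ((T * δ ^ k) • x - (A ^ k) y) =
        (δ * T) • x - (A ^ k) y := by abel
    rwa [e] at h6

end Pool.Agent.Lib.Pad47bbV
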