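import Pool.Agent.Lib.Pad47bbV.Packing
import Pool.Agent.Lib.Pad47bbV.OrderVol
import Pool.Agent.Lib.Pad47bbV.Pigeon
import Pool.Agent.Lib.Pad47bbV.Unipotent

/-!
Finite volume implies that the thick points are cocompact.

Sketch. `0 < n = finrank ℝ V`. WLOG `ε < 1` (a point that is `ε`-thick is `ε'`-thick for `ε' ≤ ε`: if
`(ε' T) x - v ∈ N` then `(ε T) x - v ∈ N` as `x ∈ N`). Let `K` be the number of
`exists_small_quotient` for `δ = ε` and `c₀` the measure of `box x := {z | z - (2/3) x ∈ N ∧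
(4/3) x - z ∈ N}` for `x` interior with `orderVol μ N x = (3/4)^n` (`measure_box`: it does not depend
on `x`; every interior point has a positive multiple with this property by `orderVol_smul`,
`orderVol_pos`, `orderVol_lt_top`), `c₀ > 0`. Call such `x` normalised. For `z ∈ box x`: `z` is
interior and `orderVol z ≤ orderVol ((4/3) x) = 1`, so some `g z ∈ D`.
If `x` is normalised and `ε`-thick then at most `K` elements of `Γ` satisfy
`(g '' box x ∩ box x).Nonempty`: for such `g`, `g z = z'` with `z, z' ∈ box x`, so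
`g x ≤ (3/2) g z = (3/2) z' ≤ 2 x` and `x ≤ (3/2) z' = (3/2) g z ≤ 2 g x`, so for `w ∈ sball N x`:
`g w ≤ g x ≤ 2 x`, etc. (the four conditions of `exists_small_quotient`; for `g⁻¹` use
`g⁻¹ x ≤ 2 x`); if a finite set `G` of more than `K` such elements existed there would be
`g₁ ≠ g₂` with `Small N ε x (g₁⁻¹ * g₂)`, contradicting `not_thick_of_small`.
By `packing` every finite family `F` of normalised thick points with
`Disjoint (g '' box x) (box y)` for `x ≠ y` in `F`, `g ∈ Γ`, has `F.card * c₀ ≤ K μ D`, so the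
cardinalities of such families are bounded; take one with maximal cardinality. For any normalised
thick point `x` (not in `F`) adding `x` to `F` violates disjointness (in one of the two orders: use
inverses), so `g '' box x` meets `box y` for some `y ∈ F`, `g ∈ Γ`: as above
`(1/2) y ≤ g x ≤ 2 y`. (For `x ∈ F` take `g = 1`.) So `Q = ⋃_{y ∈ F} {z | z - (1/2) y ∈ N ∧ 2 y - z ∈ N}`
is compact (translate and scale `isCompact_interval`), contained in `interior N`
(`interior_add_mem`). `Γ` is countable: `finite_le` or injectivity of `g ↦ (g l)_l` on a finite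
spanning subset of the countable set `L`.
Estimated 2 h.
-/

open Set Topology MeasureTheory
open scoped ENNReal

namespace Pool.Agent.Lib.Pad47bbV

open Pool.Agent.Lib.Pad47bb Pool.Agent.Lib.Pad47bbQ

variable {V : Type*} [NormedAddCommGroup V] [NormedSpace ℝ V] [FiniteDimensional ℝ V]
  {L : Submodule ℤ V} [DiscreteTopology L] [IsZLattice ℝ L]

theorem countable_of_acts {N : PointedCone ℝ V} {Γ : Subgroup (V ≃ₗ[ℝ] V)} (hA : Acts L N Γ) :
    (Γ : Set (V ≃ₗ[ℝ] V)).Countable := by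
  classical
  obtain ⟨s, hs⟩ := ZLattice.FG ℝ L
  have hcL : Countable L := by
    have : SecondCountableTopology L := inferInstance
    exact TopologicalSpace.separableSpace_iff_countable.1 inferInstance
  have hsL : ∀ x ∈ s, x ∈ L := fun x hx => by
    rw [← hs]
    exact Submodule.subset_span hx
  have hinj : Function.Injective (fun (g : Γ) (x : s) => (⟨(g : V ≃ₗ[ℝ] V) x,
      hA.map_lattice g g.2 x (hsL x x.2)⟩ : L)) := by
    intro g h hgh
    apply Subtype.ext
    apply eq_of_eqOn_lattice L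
    intro x hx
    have h1 : ∀ y ∈ s, (g : V ≃ₗ[ℝ] V) y = (h : V ≃ₗ[ℝ] V) y := by
      intro y hy
      exact congrArg Subtype.val (congrFun hgh ⟨y, hy⟩)
    rw [← hs] at hx
    induction hx using Submodule.span_induction with
    | mem y hy => exact h1 y hy
    | zero => simp
    | add a b _ _ ha hb => rw [map_add, map_add, ha, hb]
    | smul c a _ ha => rw [map_zsmul, map_zsmul, ha]
  have : Countable Γ := hinj.countable
  exact Set.countable_coe_iff.1 this

/-- The box of a point. -/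
def vbox (N : PointedCone ℝ V) (x : V) : Set V :=
  {z : V | z - (2 / 3 : ℝ) • x ∈ N ∧ (4 / 3 : ℝ) • x - z ∈ N}

omit [FiniteDimensional ℝ V] in
theorem vbox_closed {N : PointedCone ℝ V} (hN : Good N) (x : V) : IsClosed (vbox N x) :=
  (hN.closed.preimage (continuous_id.sub continuous_const)).inter
    (hN.closed.preimage (continuous_const.sub continuous_id))

omit [FiniteDimensional ℝ V] in
theorem vbox_le {N : PointedCone ℝ V} {g : V ≃ₗ[ℝ] V} (hg : ∀ x ∈ N, g x ∈ N) {x y z : V}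
    (hz : z ∈ vbox N y) (hgz : g z ∈ vbox N x) : (2 : ℝ) • x - g y ∈ N := by
  have h1 : g z - (2 / 3 : ℝ) • g y ∈ N := by
    have := hg _ hz.1
    rwa [map_sub, map_smul] at this
  have h2 : (4 / 3 : ℝ) • x - g z ∈ N := hgz.2
  have h3 := N.add_mem h1 h2
  have h4 := PointedCone.smul_mem N (show (0 : ℝ) ≤ 3 / 2 by norm_num) h3
  have e : (3 / 2 : ℝ) • (g z - (2 / 3 : ℝ) • g y + ((4 / 3 : ℝ) • x - g z)) =
      (2 : ℝ) • x - g y := by
    module
  rwa [e] at h4

theorem thick_anti {N : PointedCone ℝ V} {ε ε' : ℝ} (h : ε' ≤ ε) {x : V}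
    (hx : x ∈ N) (ht : Thick L N ε x) : Thick L N ε' x := by
  obtain ⟨y, hy, hyi, T, hT, h1, h2⟩ := ht
  refine ⟨y, hy, hyi, T, hT, h1, fun v hv hvN hv0 hc => h2 v hv hvN hv0 ?_⟩
  have h3 := PointedCone.smul_mem N (show (0 : ℝ) ≤ (ε - ε') * T from
    mul_nonneg (by linarith) hT.le) hx
  have h4 := N.add_mem hc h3
  have e : (ε' * T) • x - v + ((ε - ε') * T) • x = (ε * T) • x - v := by module
  rwa [e] at h4

theorem thick_smul {N : PointedCone ℝ V} {ε : ℝ} {x : V} {s : ℝ} (hs : 0 < s)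
    (ht : Thick L N ε x) : Thick L N ε (s • x) := by
  obtain ⟨y, hy, hyi, T, hT, h1, h2⟩ := ht
  refine ⟨y, hy, hyi, T / s, by positivity, ?_, fun v hv hvN hv0 => ?_⟩
  · rw [smul_smul, div_mul_cancel₀ _ hs.ne']
    exact h1
  · rw [smul_smul, mul_assoc, div_mul_cancel₀ _ hs.ne']
    exact h2 v hv hvN hv0

/-- Few group elements move the box of a thick point to itself. -/
theorem few_of_thick {N : PointedCone ℝ V} (hN : Good N)
    {Γ : Subgroup (V ≃ₗ[ℝ] V)} (hA : Acts L N Γ) {δ : ℝ} (hδ : 0 < δ) (hδ1 : δ < 1) {K : ℕ}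
    (hK : ∀ N : PointedCone ℝ V, Good N → ∀ x ∈ interior (N : Set V),
      ∀ G : Finset (V ≃ₗ[ℝ] V),
      (∀ g ∈ G, ∀ z ∈ sball N x, ((2 : ℝ) • x - g z ∈ N ∧ (2 : ℝ) • x + g z ∈ N) ∧
        (2 : ℝ) • x - g⁻¹ z ∈ N ∧ (2 : ℝ) • x + g⁻¹ z ∈ N) →
      K < G.card → ∃ g₁ ∈ G, ∃ g₂ ∈ G, g₁ ≠ g₂ ∧ Small N δ x (g₁⁻¹ * g₂))
    {x : V} (hx : x ∈ interior (N : Set V)) (ht : Thick L N δ x)
    (G : Finset (V ≃ₗ[ℝ] V)) (hG : ∀ g ∈ G, g ∈ Γ ∧
      (((g : V → V) '' vbox N x) ∩ vbox N x).Nonempty) : G.card ≤ K := by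
  by_contra hcon
  push Not at hcon
  have hb : ∀ g ∈ Γ, (2 : ℝ) • x - g x ∈ N → ∀ z ∈ sball N x,
      (2 : ℝ) • x - g z ∈ N ∧ (2 : ℝ) • x + g z ∈ N := by
    intro g hg h1 z hz
    have h2 := hA.map_cone g hg _ hz.1
    have h3 := hA.map_cone g hg _ hz.2
    rw [map_sub] at h2
    rw [map_add] at h3
    constructor
    · -- `g (x + z)`
      have := N.add_mem h1 h2
      have e : (2 : ℝ) • x - g x + (g x - g z) = (2 : ℝ) • x - g z := by abel
      rwa [e] at this
    · have := N.add_mem h1 h3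
      have e : (2 : ℝ) • x - g x + (g x + g z) = (2 : ℝ) • x + g z := by abel
      rwa [e] at this
  obtain ⟨g₁, h₁, g₂, h₂, hne, hs⟩ := hK N hN x hx G (by
    intro g hg z hz
    obtain ⟨hgΓ, w, ⟨z', hz', rfl⟩, hw⟩ := hG g hg
    refine ⟨hb g hgΓ (vbox_le (hA.map_cone g hgΓ) hz' hw) z hz, ?_⟩
    refine hb g⁻¹ (inv_mem hgΓ) ?_ z hz
    refine vbox_le (hA.map_cone g⁻¹ (inv_mem hgΓ)) hw ?_
    have e : g⁻¹ (g z') = z' := g.symm_apply_apply z'
    rw [e]
    exact hz') hcon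
  refine not_thick_of_small hN hA (mul_mem (inv_mem (hG g₁ h₁).1) (hG g₂ h₂).1) ?_ hx hδ hδ1 hs ht
  intro h
  apply hne
  rwa [inv_mul_eq_one] at h

/-- The set of points comparable with `y`. -/
def cset (N : PointedCone ℝ V) (y : V) : Set V :=
  {z : V | z - (1 / 2 : ℝ) • y ∈ N ∧ (2 : ℝ) • y - z ∈ N}

theorem cset_compact {N : PointedCone ℝ V} (hN : Good N) (y : V) : IsCompact (cset N y) := by
  have h := (isCompact_interval hN ((3 / 2 : ℝ) • y)).image
    (show Continuous (fun u : V => (1 / 2 : ℝ) • y + u) by fun_prop)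
  convert h using 1
  ext z
  constructor
  · rintro ⟨h1, h2⟩
    refine ⟨z - (1 / 2 : ℝ) • y, ⟨h1, ?_⟩, by simp⟩
    have e : (3 / 2 : ℝ) • y - (z - (1 / 2 : ℝ) • y) = (2 : ℝ) • y - z := by module
    rw [e]
    exact h2
  · rintro ⟨u, ⟨h1, h2⟩, rfl⟩
    refine ⟨?_, ?_⟩
    · have e : (1 / 2 : ℝ) • y + u - (1 / 2 : ℝ) • y = u := by abel
      show (1 / 2 : ℝ) • y + u - (1 / 2 : ℝ) • y ∈ N
      rw [e]
      exact h1
    · have e : (2 : ℝ) • y - ((1 / 2 : ℝ) • y + u) = (3 / 2 : ℝ) • y - u := by module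
      show (2 : ℝ) • y - ((1 / 2 : ℝ) • y + u) ∈ N
      rw [e]
      exact h2

theorem cset_subset {N : PointedCone ℝ V} {y : V} (hy : y ∈ interior (N : Set V)) :
    cset N y ⊆ interior (N : Set V) := by
  rintro z ⟨h1, -⟩
  have := interior_add_mem (interior_smul_mem hy (show (0 : ℝ) < 1 / 2 by norm_num)) h1
  have e : (1 / 2 : ℝ) • y + (z - (1 / 2 : ℝ) • y) = z := by abel
  rwa [e] at this

/-- If the boxes of `x` and `b` meet modulo `g`, then `g x` is comparable with `b`. -/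
theorem mem_cset {N : PointedCone ℝ V}
    {Γ : Subgroup (V ≃ₗ[ℝ] V)} (hA : Acts L N Γ) {g : V ≃ₗ[ℝ] V} (hg : g ∈ Γ) {x b z : V}
    (hz : z ∈ vbox N x) (hgz : g z ∈ vbox N b) : g x ∈ cset N b := by
  refine ⟨?_, vbox_le (hA.map_cone g hg) hz hgz⟩
  have e : g⁻¹ (g z) = z := g.symm_apply_apply z
  have h1 : (2 : ℝ) • x - g⁻¹ b ∈ N := by
    refine vbox_le (hA.map_cone g⁻¹ (inv_mem hg)) hgz ?_
    rw [e]
    exact hz
  have h2 := hA.map_cone g hg _ h1
  have e2 : g (g⁻¹ b) = b := g.apply_symm_apply b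
  rw [map_sub, map_smul, e2] at h2
  have h3 := PointedCone.smul_mem N (show (0 : ℝ) ≤ 1 / 2 by norm_num) h2
  have e3 : (1 / 2 : ℝ) • ((2 : ℝ) • g x - b) = g x - (1 / 2 : ℝ) • b := by module
  rwa [e3] at h3

theorem thickCocompact_of_finiteVolume [Nontrivial V] [MeasurableSpace V] [BorelSpace V]
    (μ : Measure V) [μ.IsAddHaarMeasure] {N : PointedCone ℝ V} (hN : Good N)
    {Γ : Subgroup (V ≃ₗ[ℝ] V)} (hA : Acts L N Γ) (hvol : FiniteVolume μ N Γ) :
    ThickCocompact L N Γ := by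
  classical
  intro ε₀ hε₀
  set n := Module.finrank ℝ V with hn
  have hn0 : 0 < n := Module.finrank_pos
  set ε : ℝ := min ε₀ (1 / 2) with hε
  have hε0 : 0 < ε := lt_min hε₀ (by norm_num)
  have hε1 : ε < 1 := lt_of_le_of_lt (min_le_right _ _) (by norm_num)
  have hεle : ε ≤ ε₀ := min_le_left _ _
  obtain ⟨K, hK⟩ := exists_small_quotient V hε0
  obtain ⟨D, hD, hDfin, hDcov⟩ := hvol
  -- normalised thick points
  set P : V → Prop := fun x => x ∈ interior (N : Set V) ∧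
    orderVol μ N x = ENNReal.ofReal ((3 / 4 : ℝ) ^ n) ∧ Thick L N ε x with hP
  set c₀ : ℝ≥0∞ := ENNReal.ofReal ((1 / 2 : ℝ) ^ n) with hc₀
  have hc₀pos : c₀ ≠ 0 := by
    rw [hc₀, Ne, ENNReal.ofReal_eq_zero, not_le]
    positivity
  have hc₀top : c₀ ≠ ∞ := ENNReal.ofReal_ne_top
  have hbox : ∀ x, P x → μ (vbox N x) = c₀ := by
    intro x hx
    have h1 := measure_box μ (N := N) x
    have h2 : μ (vbox N x) = ENNReal.ofReal ((2 / 3) ^ n) * orderVol μ N x := h1
    rw [h2, hx.2.1, ← ENNReal.ofReal_mul (by positivity), ← mul_pow, hc₀]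
    norm_num
  have hcov : ∀ x, P x → ∀ z ∈ vbox N x, ∃ g ∈ Γ, g z ∈ D := by
    intro x hx z hz
    apply hDcov
    · have := interior_add_mem (interior_smul_mem hx.1 (show (0 : ℝ) < 2 / 3 by norm_num)) hz.1
      have e : (2 / 3 : ℝ) • x + (z - (2 / 3 : ℝ) • x) = z := by abel
      rwa [e] at this
    · refine (orderVol_mono μ hz.2).trans ?_
      rw [orderVol_smul μ N (by norm_num) x, hx.2.1, ← ENNReal.ofReal_mul (by positivity), ← hn,
        ← mul_pow]
      norm_num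
  have hpack : ∀ F : Finset V, (∀ x ∈ F, P x) →
      (∀ x ∈ F, ∀ y ∈ F, x ≠ y → ∀ g ∈ Γ, Disjoint ((g : V → V) '' vbox N x) (vbox N y)) →
      (F.card : ℝ≥0∞) * c₀ ≤ K * μ D := by
    intro F hF hdisj
    refine packing μ Γ (countable_of_acts hA) ?_ hD F (vbox N)
      (fun x _ => (vbox_closed hN x).measurableSet) (fun x hx => hcov x (hF x hx))
      (fun x hx => (hbox x (hF x hx)).ge) ?_ hdisj
    · intro g hg S
      exact measure_image_eq μ (L := L) (hA.map_lattice g hg) (hA.map_lattice g⁻¹ (inv_mem hg)) S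
    · intro x hx G hG
      exact few_of_thick hN hA hε0 hε1 hK (hF x hx).1 (hF x hx).2.2 G hG
  -- bounded cardinality
  set fam : Set ℕ := {k | ∃ F : Finset V, (∀ x ∈ F, P x) ∧
    (∀ x ∈ F, ∀ y ∈ F, x ≠ y → ∀ g ∈ Γ, Disjoint ((g : V → V) '' vbox N x) (vbox N y)) ∧
    F.card = k} with hfam
  have hbdd : BddAbove fam := by
    have hfin : (K : ℝ≥0∞) * μ D / c₀ ≠ ∞ :=
      ENNReal.div_ne_top (ENNReal.mul_ne_top (ENNReal.natCast_ne_top K) hDfin.ne) hc₀pos
    refine ⟨⌈((K : ℝ≥0∞) * μ D / c₀).toReal⌉₊, ?_⟩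
    rintro k ⟨F, h1, h2, rfl⟩
    have h3 := hpack F h1 h2
    have h4 : (F.card : ℝ≥0∞) ≤ (K : ℝ≥0∞) * μ D / c₀ :=
      (ENNReal.le_div_iff_mul_le (Or.inl hc₀pos) (Or.inl hc₀top)).2 h3
    have h5 := ENNReal.toReal_mono hfin h4
    rw [ENNReal.toReal_natCast] at h5
    exact_mod_cast h5.trans (Nat.le_ceil _)
  have hnonempty : fam.Nonempty := ⟨0, ∅, by simp, by simp, by simp⟩
  obtain ⟨F, hFP, hFd, hFc⟩ := Nat.sSup_mem hnonempty hbdd
  refine ⟨⋃ y ∈ F, cset N y, F.finite_toSet.isCompact_biUnion (fun y _ => cset_compact hN y), ?_, ?_⟩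
  · intro z hz
    simp only [mem_iUnion] at hz
    obtain ⟨y, hy, hz⟩ := hz
    exact cset_subset (hFP y hy).1 hz
  intro x hx hthick
  -- normalise
  have hv0 : orderVol μ N x ≠ 0 := (orderVol_pos μ hN hx).ne'
  have hvt : orderVol μ N x ≠ ∞ := (orderVol_lt_top μ hN x).ne
  set v : ℝ := (orderVol μ N x).toReal with hv
  have hvpos : 0 < v := ENNReal.toReal_pos hv0 hvt
  set s : ℝ := (3 / 4) * (v ^ (-(1 / (n : ℝ)))) with hs
  have hspos : 0 < s := by positivity
  have hspow : s ^ n * v = (3 / 4 : ℝ) ^ n := by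
    rw [hs, mul_pow, ← Real.rpow_natCast (v ^ _) n, ← Real.rpow_mul hvpos.le]
    have e : -(1 / (n : ℝ)) * n = -1 := by
      have : (n : ℝ) ≠ 0 := by exact_mod_cast hn0.ne'
      field_simp
    rw [e, Real.rpow_neg_one, mul_assoc, inv_mul_cancel₀ hvpos.ne', mul_one]
  have hPs : P (s • x) := by
    refine ⟨interior_smul_mem hx hspos, ?_, thick_smul hspos (thick_anti hεle (interior_subset hx)
      hthick)⟩
    rw [orderVol_smul μ N hspos x, ← hn, ← ENNReal.ofReal_toReal hvt, ← ENNReal.ofReal_mul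
      (by positivity), ← hv, hspow]
  have hfinish : ∀ g ∈ Γ, ∀ b ∈ F, g (s • x) ∈ cset N b →
      ∃ g ∈ Γ, ∃ s : ℝ, 0 < s ∧ s • g x ∈ ⋃ y ∈ F, cset N y := by
    intro g hg b hb hgb
    refine ⟨g, hg, s, hspos, ?_⟩
    simp only [mem_iUnion]
    refine ⟨b, hb, ?_⟩
    rwa [map_smul] at hgb
  by_cases hxF : s • x ∈ F
  · refine hfinish 1 (one_mem Γ) _ hxF ⟨?_, ?_⟩
    · have e : (1 : V ≃ₗ[ℝ] V) (s • x) - (1 / 2 : ℝ) • (s • x) = (1 / 2 : ℝ) • (s • x) := by
        show s • x - (1 / 2 : ℝ) • (s • x) = _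
        module
      rw [e]
      exact PointedCone.smul_mem N (by norm_num) (interior_subset hPs.1)
    · have e : (2 : ℝ) • (s • x) - (1 : V ≃ₗ[ℝ] V) (s • x) = s • x := by
        show (2 : ℝ) • (s • x) - s • x = _
        module
      rw [e]
      exact interior_subset hPs.1
  by_contra hcon
  have hno : ∀ g ∈ Γ, ∀ b ∈ F, g (s • x) ∉ cset N b := fun g hg b hb h =>
    hcon (hfinish g hg b hb h)
  have hins : (insert (s • x) F).card ∈ fam := by
    refine ⟨insert (s • x) F, ?_, ?_, rfl⟩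
    · intro y hy
      rcases Finset.mem_insert.1 hy with rfl | hy
      · exact hPs
      · exact hFP y hy
    · intro a ha b hb hab g hg
      rcases Finset.mem_insert.1 ha with rfl | ha
      · rcases Finset.mem_insert.1 hb with rfl | hb
        · exact absurd rfl hab
        · rw [Set.disjoint_left]
          rintro _ ⟨z, hz, rfl⟩ hgz
          exact hno g hg b hb (mem_cset hA hg hz hgz)
      · rcases Finset.mem_insert.1 hb with rfl | hb
        · rw [Set.disjoint_left]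
          rintro _ ⟨z, hz, rfl⟩ hgz
          refine hno g⁻¹ (inv_mem hg) a ha (mem_cset hA (inv_mem hg) hgz ?_)
          have e : g⁻¹ (g z) = z := g.symm_apply_apply z
          rw [e]
          exact hz
        · exact hFd a ha b hb hab g hg
  have h1 := le_csSup hbdd hins
  rw [Finset.card_insert_of_notMem hxF] at h1
  omega

end Pool.Agent.Lib.Pad47bbV
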